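import Mathlib

/-!
# Locally nilpotent derivations of a domain of characteristic zero
-/

set_option autoImplicit false

namespace Pool.Agent.V1154.Tri

universe u v

/-- a derivation is locally nilpotent if every element is killed by some iterate -/
def IsLND {k : Type u} {R : Type v} [CommRing k] [CommRing R] [Algebra k R]
    (D : Derivation k R R) : Prop :=
  ∀ x : R, ∃ n : ℕ, (⇑D)^[n] x = 0

section

variable {k : Type u} {R : Type v} [Field k] [CommRing R] [Algebra k R] (D : Derivation k R R)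

open Finset Nat in
theorem leib (n : ℕ) (a b : R) :
    (⇑D)^[n] (a * b) = ∑ ij ∈ antidiagonal n, choose n ij.1 • ((⇑D)^[ij.1] a * (⇑D)^[ij.2] b) := by
  induction n with
  | zero => simp
  | succ n ih =>
    rw [sum_antidiagonal_choose_succ_nsmul (M := R) (fun i j => (⇑D)^[i] a * (⇑D)^[j] b) n]
    simp only [Function.iterate_succ_apply', ih, map_sum, map_nsmul, D.leibniz, smul_add,
      sum_add_distrib, add_right_inj, smul_eq_mul]
    refine sum_congr rfl fun ⟨i, j⟩ hij ↦ ?_
    rw [n.choose_symm_of_eq_add (HasAntidiagonal.mem_antidiagonal.1 hij).symm, mul_comm]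

theorem iter_zero (n : ℕ) : (⇑D)^[n] (0 : R) = 0 := by
  induction n with
  | zero => rfl
  | succ n ih => rw [Function.iterate_succ_apply', ih, map_zero]

theorem iter_smul (n : ℕ) (c : k) (x : R) : (⇑D)^[n] (c • x) = c • (⇑D)^[n] x := by
  induction n with
  | zero => rfl
  | succ n ih => rw [Function.iterate_succ_apply', ih, Derivation.map_smul,
      Function.iterate_succ_apply']

theorem iter_add (n : ℕ) (x y : R) : (⇑D)^[n] (x + y) = (⇑D)^[n] x + (⇑D)^[n] y := by
  induction n with
  | zero => rfl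
  | succ n ih => simp only [Function.iterate_succ_apply', ih, map_add]

theorem iter_sub (n : ℕ) (x y : R) : (⇑D)^[n] (x - y) = (⇑D)^[n] x - (⇑D)^[n] y := by
  induction n with
  | zero => rfl
  | succ n ih => simp only [Function.iterate_succ_apply', ih, map_sub]

theorem iter_ge {x : R} {m n : ℕ} (h : (⇑D)^[m] x = 0) (hn : m ≤ n) : (⇑D)^[n] x = 0 := by
  obtain ⟨c, rfl⟩ := Nat.exists_eq_add_of_le hn
  rw [add_comm, Function.iterate_add_apply, h, iter_zero]

/-- the exact order of nilpotency -/
def Ord (x : R) (m : ℕ) : Prop := (⇑D)^[m] x ≠ 0 ∧ (⇑D)^[m + 1] x = 0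

variable {D}

theorem exists_ord (hD : IsLND D) {x : R} (hx : x ≠ 0) : ∃ m, Ord D x m := by
  classical
  have h := hD x
  have h0 : Nat.find h ≠ 0 := by
    intro h0
    have := Nat.find_spec h
    rw [h0] at this
    exact hx this
  obtain ⟨m, hm⟩ := Nat.exists_eq_succ_of_ne_zero h0
  refine ⟨m, Nat.find_min h (by omega), ?_⟩
  have := Nat.find_spec h
  rw [hm] at this
  exact this

theorem Ord.ne {x : R} {m : ℕ} (h : Ord D x m) : x ≠ 0 := by
  rintro rfl
  exact h.1 (iter_zero D m)

theorem Ord.unique {x : R} {m n : ℕ} (h : Ord D x m) (h' : Ord D x n) : m = n := by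
  rcases Nat.lt_trichotomy m n with hl | hl | hl
  · exact absurd (iter_ge D h.2 hl) h'.1
  · exact hl
  · exact absurd (iter_ge D h'.2 hl) h.1

theorem ord_zero_iff {x : R} (hx : x ≠ 0) : Ord D x 0 ↔ D x = 0 := by
  constructor
  · intro h
    exact h.2
  · intro h
    exact ⟨hx, h⟩

theorem Ord.deriv {x : R} {m : ℕ} (h : Ord D x (m + 1)) : Ord D (D x) m := by
  refine ⟨?_, ?_⟩
  · rw [← Function.iterate_succ_apply]; exact h.1
  · rw [← Function.iterate_succ_apply]; exact h.2

theorem Ord.deriv_ne {x : R} {m : ℕ} (h : Ord D x (m + 1)) : D x ≠ 0 := h.deriv.ne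

variable [IsDomain R] [CharZero k]

theorem natSmul_ne (k : Type u) {R : Type v} [Field k] [CommRing R] [Algebra k R] [IsDomain R]
    [CharZero k] {n : ℕ} (hn : n ≠ 0) {x : R} (hx : x ≠ 0) : n • x ≠ 0 := by
  have : CharZero R := charZero_of_injective_algebraMap (algebraMap k R).injective
  rw [nsmul_eq_mul]
  exact mul_ne_zero (Nat.cast_ne_zero.2 hn) hx

theorem Ord.mul {x y : R} {m n : ℕ} (hx : Ord D x m) (hy : Ord D y n) : Ord D (x * y) (m + n) := by
  constructor
  · rw [leib, Finset.sum_eq_single_of_mem (m, n) (by simp)]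
    · exact natSmul_ne k (Nat.choose_pos (Nat.le_add_right m n)).ne' (mul_ne_zero hx.1 hy.1)
    · rintro ⟨i, j⟩ hij hne
      rw [Finset.HasAntidiagonal.mem_antidiagonal] at hij
      simp only at hij ⊢
      rcases Nat.lt_trichotomy i m with hl | hl | hl
      · rw [iter_ge D hy.2 (by omega : n + 1 ≤ j), mul_zero, smul_zero]
      · exfalso
        apply hne
        ext
        · exact hl
        · simp only; omega
      · rw [iter_ge D hx.2 (by omega : m + 1 ≤ i), zero_mul, smul_zero]
  · rw [leib]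
    apply Finset.sum_eq_zero
    rintro ⟨i, j⟩ hij
    rw [Finset.HasAntidiagonal.mem_antidiagonal] at hij
    simp only at hij ⊢
    by_cases hl : m + 1 ≤ i
    · rw [iter_ge D hx.2 hl, zero_mul, smul_zero]
    · rw [iter_ge D hy.2 (by omega : n + 1 ≤ j), mul_zero, smul_zero]

/-- the kernel is factorially closed -/
theorem ker_of_mul (hD : IsLND D) {x y : R} (hxy : x * y ≠ 0) (h : D (x * y) = 0) :
    D x = 0 ∧ D y = 0 := by
  have hx := left_ne_zero_of_mul hxy
  have hy := right_ne_zero_of_mul hxy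
  obtain ⟨m, hm⟩ := exists_ord hD hx
  obtain ⟨n, hn⟩ := exists_ord hD hy
  have h1 := hm.mul hn
  have h2 := (ord_zero_iff (D := D) hxy).2 h
  have h3 := h1.unique h2
  have hm0 : m = 0 := by omega
  have hn0 : n = 0 := by omega
  subst hm0
  subst hn0
  exact ⟨hm.2, hn.2⟩

theorem ker_of_dvd (hD : IsLND D) {x y : R} (hy : y ≠ 0) (h : D y = 0) (hx : x ∣ y) : D x = 0 := by
  obtain ⟨z, rfl⟩ := hx
  exact (ker_of_mul hD hy h).1

theorem ord_le_of_dvd (hD : IsLND D) {x y : R} {m n : ℕ} (hx : Ord D x m) (hy : Ord D y n)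
    (h : x ∣ y) : m ≤ n := by
  obtain ⟨z, rfl⟩ := h
  have hz := right_ne_zero_of_mul hy.ne
  obtain ⟨r, hr⟩ := exists_ord hD hz
  have := (hx.mul hr).unique hy
  omega

/-- `x ∣ D x` implies `D x = 0` -/
theorem dvd_self_ker (hD : IsLND D) {x : R} (h : x ∣ D x) : D x = 0 := by
  by_contra hne
  have hx : x ≠ 0 := by rintro rfl; exact hne (map_zero D)
  obtain ⟨m, hm⟩ := exists_ord hD hx
  cases m with
  | zero => exact hne hm.2
  | succ m =>
    have := ord_le_of_dvd hD hm hm.deriv h
    omega

/-- `x ∣ D y` and `y ∣ D x` imply `D x = 0` or `D y = 0` -/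
theorem dvd_cross_ker (hD : IsLND D) {x y : R} (h : x ∣ D y) (h' : y ∣ D x) :
    D x = 0 ∨ D y = 0 := by
  by_contra hne
  push Not at hne
  obtain ⟨hnx, hny⟩ := hne
  have hx : x ≠ 0 := by rintro rfl; exact hnx (map_zero D)
  have hy : y ≠ 0 := by rintro rfl; exact hny (map_zero D)
  obtain ⟨m, hm⟩ := exists_ord hD hx
  obtain ⟨n, hn⟩ := exists_ord hD hy
  cases m with
  | zero => exact hnx hm.2
  | succ m =>
    cases n with
    | zero => exact hny hn.2
    | succ n =>
      have h1 := ord_le_of_dvd hD hm hn.deriv h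
      have h2 := ord_le_of_dvd hD hn hm.deriv h'
      omega

/-- If `D = h δ` is locally nilpotent and nonzero, then `h` is in the kernel of `D`. -/
theorem factor_ker (hD : IsLND D) {x h d : R} (hx : D x = h * d) (hx0 : D x ≠ 0)
    (hh : ∀ y, ∃ e, D y = h * e) : D h = 0 := by
  have hxne : x ≠ 0 := by rintro rfl; exact hx0 (map_zero D)
  obtain ⟨m, hm⟩ := exists_ord hD hxne
  cases m with
  | zero => exact absurd hm.2 hx0
  | succ m =>
    -- the last nonzero iterate is divisible by `h`
    have h1 : (⇑D)^[m + 1] x ≠ 0 := hm.1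
    have h2 : D ((⇑D)^[m + 1] x) = 0 := by
      have := hm.2
      rwa [Function.iterate_succ_apply'] at this
    obtain ⟨e, he⟩ := hh ((⇑D)^[m] x)
    have h3 : (⇑D)^[m + 1] x = h * e := by rw [Function.iterate_succ_apply', he]
    exact ker_of_dvd hD h1 h2 ⟨e, h3⟩

omit [IsDomain R] [CharZero k] in
/-- Reduction step towards a slice: `a = D r`, `D a = 0`, `m! a ^ m f - (D ^ m f) r ^ m` has
smaller order than `f`. -/
theorem iter_pow_slice {r : R} (hr : D (D r) = 0) (m : ℕ) :
    (⇑D)^[m] (r ^ m) = (m.factorial : ℕ) • (D r) ^ m := by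
  have hgen : ∀ m j : ℕ, j ≤ m → (⇑D)^[j] (r ^ m) = (m.descFactorial j) • ((D r) ^ j * r ^ (m - j)) := by
    intro m j
    induction j with
    | zero => intro _; simp
    | succ j ih =>
      intro hj
      rw [Function.iterate_succ_apply', ih (by omega), map_nsmul, D.leibniz, D.leibniz_pow,
        D.leibniz_pow, hr, smul_zero, smul_zero, smul_zero, add_zero, smul_eq_mul,
        Nat.descFactorial_succ]
      have e1 : m - j - 1 = m - (j + 1) := by omega
      rw [e1]
      simp only [smul_eq_mul, nsmul_eq_mul, Nat.cast_mul]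
      ring
  rw [hgen m m le_rfl, Nat.descFactorial_self, Nat.sub_self, pow_zero, mul_one]

omit [IsDomain R] [CharZero k] in
theorem iter_mul_ker {c : R} (hc : D c = 0) (n : ℕ) (x : R) :
    (⇑D)^[n] (c * x) = c * (⇑D)^[n] x := by
  induction n with
  | zero => rfl
  | succ n ih =>
    rw [Function.iterate_succ_apply', ih, D.leibniz, hc, smul_zero, add_zero,
      Function.iterate_succ_apply', smul_eq_mul]

end

end Pool.Agent.V1154.Tri
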