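import Mathlib
import Pool.Agent.V1154.Tri.Lnd

/-!
# Trinomial algebras and their finest grading

`ι` is the (finite) set of variables, `p : ι → Fin 3` says in which of the three monomials a
variable occurs and `l : ι → ℕ` gives the exponents.
-/

set_option autoImplicit false

open MvPolynomial

namespace Pool.Agent.V1154.Tri

universe u v

section

variable (k : Type u) [Field k] {ι : Type v} [Fintype ι] [DecidableEq ι]
  (p : ι → Fin 3) (l : ι → ℕ)

/-- the monomial `T_i ^ (l_i)`, the product of all `X_j ^ (l j)` with `j` in block `i` -/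
noncomputable def mono (i : Fin 3) : MvPolynomial ι k :=
  ∏ j ∈ Finset.univ.filter (fun j => p j = i), X j ^ l j

/-- the trinomial `g = T_0 ^ (l_0) + T_1 ^ (l_1) + T_2 ^ (l_2)` -/
noncomputable def trinomial : MvPolynomial ι k := mono k p l 0 + mono k p l 1 + mono k p l 2

/-- the trinomial algebra `R(g)` -/
abbrev TriAlg : Type (max u v) := MvPolynomial ι k ⧸ Ideal.span {trinomial k p l}

/-- the class of the variable `T_j` in `R(g)` -/
noncomputable def T (j : ι) : TriAlg k p l := Ideal.Quotient.mk _ (X j)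

/-- the exponent vector `l_i ∈ ℤ^n` of the monomial of block `i` -/
def expVec (i : Fin 3) : ι → ℤ := fun j => if p j = i then (l j : ℤ) else 0

/-- the grading group `K = ℤ^n / (ℤ (l_0 - l_1) + ℤ (l_1 - l_2))` -/
abbrev GradGroup : Type v :=
  (ι → ℤ) ⧸ AddSubgroup.closure {expVec p l 0 - expVec p l 1, expVec p l 1 - expVec p l 2}

/-- the degree of `T_j` -/
def degT (j : ι) : GradGroup p l := QuotientAddGroup.mk (Pi.single j 1)

/-- the homogeneous component `R_u` of `R(g)`, `u ∈ K` -/
noncomputable def comp (u : GradGroup p l) : Submodule k (TriAlg k p l) :=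
  (weightedHomogeneousSubmodule k (degT p l) u).map
    (Ideal.Quotient.mkₐ k (Ideal.span {trinomial k p l})).toLinearMap

/-- a derivation is homogeneous if it shifts degrees by a fixed element of `K` -/
def IsHomDer (D : Derivation k (TriAlg k p l) (TriAlg k p l)) : Prop :=
  ∃ w : GradGroup p l, ∀ u : GradGroup p l, ∀ x ∈ comp k p l u, D x ∈ comp k p l (u + w)

/-- `∂_i = ∂ T_i ^ (l_i) / ∂ T_c`, for a variable `c` of block `i = p c`, as an element of `R(g)` -/
noncomputable def part (c : ι) : TriAlg k p l :=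
  Ideal.Quotient.mk _ (pderiv c (mono k p l (p c)))

/-- `δ` is the derivation `δ_{C,β}`, of type (i) or of type (ii). -/
def IsBasic (δ : Derivation k (TriAlg k p l) (TriAlg k p l)) (C : Fin 3 → ι) (β : Fin 3 → k) :
    Prop :=
  (∀ i, p (C i) = i) ∧ β 0 + β 1 + β 2 = 0 ∧
    (∀ j, (∀ i, j ≠ C i) → δ (T k p l j) = 0) ∧
    (((∀ i, β i ≠ 0) ∧ (∀ i i', i ≠ i' → l (C i) = 1 ∨ l (C i') = 1) ∧
        ∀ i, δ (T k p l (C i)) = β i • ∏ i' ∈ Finset.univ.erase i, part k p l (C i')) ∨
      (∃ i0, β i0 = 0 ∧ (∀ i, i ≠ i0 → β i ≠ 0) ∧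
        (∀ i i', i ≠ i0 → i' ≠ i0 → i ≠ i' → l (C i) = 1 ∨ l (C i') = 1) ∧
        ∀ i, δ (T k p l (C i)) =
          β i • ∏ i' ∈ (Finset.univ.erase i).erase i0, part k p l (C i')))

/-- `D` is elementary: `D = h δ_{C,β}` with `h` homogeneous and in the kernel of `δ_{C,β}` -/
def IsElementary (D : Derivation k (TriAlg k p l) (TriAlg k p l)) : Prop :=
  ∃ (C : Fin 3 → ι) (β : Fin 3 → k) (δ : Derivation k (TriAlg k p l) (TriAlg k p l))
    (h : TriAlg k p l), IsBasic k p l δ C β ∧ (∃ u, h ∈ comp k p l u) ∧ δ h = 0 ∧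
      ∀ x, D x = h * δ x

end

end Pool.Agent.V1154.Tri
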