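import Mathlib
import Pool.Agent.V1154.Tri.Defs

/-!
# Trinomial algebras: domain, prime variables
-/

set_option autoImplicit false

open MvPolynomial

namespace Pool.Agent.V1154.Tri

universe u v

section

variable (k : Type u) [Field k] {ι : Type v} [Fintype ι] [DecidableEq ι]
  (p : ι → Fin 3) (l : ι → ℕ)

/-- exponent vector of block `i` -/
noncomputable def ev (i : Fin 3) : ι →₀ ℕ :=
  Finsupp.equivFunOnFinite.symm (fun j => if p j = i then l j else 0)

@[simp] theorem ev_apply (i : Fin 3) (j : ι) : ev p l i j = if p j = i then l j else 0 := rfl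

theorem mono_eq (i : Fin 3) : mono k p l i = monomial (ev p l i) 1 := by
  have h1 : ev p l i = ∑ j ∈ Finset.univ.filter (fun j => p j = i), Finsupp.single j (l j) := by
    ext j
    rw [Finsupp.finsetSum_apply, ev_apply]
    simp only [Finsupp.single_apply]
    rw [Finset.sum_ite_eq' (Finset.univ.filter (fun j => p j = i)) j (fun j => l j)]
    simp
  rw [h1, monomial_sum_one, mono]
  exact Finset.prod_congr rfl (fun j _ => by rw [X_pow_eq_monomial])

variable {p l}

/-- a partial sum of the trinomial -/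
noncomputable def fS (S : Finset (Fin 3)) : MvPolynomial ι k := ∑ i ∈ S, monomial (ev p l i) 1

theorem ev_inj (hp : Function.Surjective p) (hl : ∀ j, 0 < l j) {i i' : Fin 3}
    (h : ev p l i = ev p l i') : i = i' := by
  obtain ⟨j, rfl⟩ := hp i
  have := DFunLike.congr_fun h j
  simp only [ev_apply, if_true] at this
  by_contra hne
  rw [if_neg hne] at this
  exact (hl j).ne' this

theorem coeff_fS (hp : Function.Surjective p) (hl : ∀ j, 0 < l j) (S : Finset (Fin 3))
    (i : Fin 3) (hi : i ∈ S) : coeff (ev p l i) (fS k (p := p) (l := l) S) = 1 := by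
  rw [fS, coeff_sum, Finset.sum_eq_single_of_mem i hi]
  · simp
  · intro b _ hb
    rw [coeff_monomial, if_neg]
    intro h
    exact hb (ev_inj hp hl h)

theorem support_fS (hp : Function.Surjective p) (hl : ∀ j, 0 < l j) (S : Finset (Fin 3)) :
    (fS k (p := p) (l := l) S).support = S.image (ev p l) := by
  classical
  ext d
  rw [mem_support_iff, Finset.mem_image]
  constructor
  · intro h
    by_contra hne
    push Not at hne
    apply h
    rw [fS, coeff_sum]
    apply Finset.sum_eq_zero
    intro i hi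
    rw [coeff_monomial, if_neg (hne i hi)]
  · rintro ⟨i, hi, rfl⟩
    rw [coeff_fS k hp hl S i hi]
    exact one_ne_zero

theorem fS_irreducible (hp : Function.Surjective p) (hl : ∀ j, 0 < l j) (S : Finset (Fin 3))
    (hS : ∃ a ∈ S, ∃ b ∈ S, a ≠ b) (hj : ∃ j, p j ∈ S ∧ l j = 1) :
    Irreducible (fS k (p := p) (l := l) S) := by
  classical
  obtain ⟨j, hjS, hj1⟩ := hj
  apply irreducible_of_disjoint_support (d := ev p l (p j)) (i := j)
  · obtain ⟨a, ha, b, hb, hab⟩ := hS
    refine ⟨ev p l a, ?_, ev p l b, ?_, fun h => hab (ev_inj hp hl h)⟩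
    · rw [support_fS k hp hl]; exact Finset.mem_coe.2 (Finset.mem_image_of_mem _ ha)
    · rw [support_fS k hp hl]; exact Finset.mem_coe.2 (Finset.mem_image_of_mem _ hb)
  · rw [support_fS k hp hl]
    exact Finset.mem_image_of_mem _ hjS
  · simp [hj1]
  · rw [support_fS k hp hl]
    intro d hd e he hde
    rw [Finset.mem_coe, Finset.mem_image] at hd he
    obtain ⟨a, _, rfl⟩ := hd
    obtain ⟨b, _, rfl⟩ := he
    rw [Function.onFun, Finset.disjoint_left]
    intro x hx hx'
    rw [Finsupp.mem_support_iff, ev_apply] at hx hx'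
    have h1 : p x = a := by by_contra h; exact hx (if_neg h)
    have h2 : p x = b := by by_contra h; exact hx' (if_neg h)
    exact hde (by rw [← h1, ← h2])
  · intro r hr
    obtain ⟨a, ha, -⟩ := hS
    have := hr (ev p l a)
    rw [coeff_fS k hp hl S a ha] at this
    exact isUnit_of_dvd_one this


variable (p l)

/-- the standing assumptions: the three blocks are nonempty, the exponents are positive and at
least two of the three blocks contain a variable of exponent one -/
structure Good : Prop where
  surj : Function.Surjective p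
  pos : ∀ j, 0 < l j
  one : ∀ i i', i ≠ i' → ∃ j, (p j = i ∨ p j = i') ∧ l j = 1

theorem trinomial_eq : trinomial k p l = fS k (p := p) (l := l) Finset.univ := by
  rw [trinomial, fS, Fin.sum_univ_three, mono_eq, mono_eq, mono_eq]

variable {p l}

theorem fS_prime (h : Good p l) (S : Finset (Fin 3)) (hS : ∃ a ∈ S, ∃ b ∈ S, a ≠ b) :
    Prime (fS k (p := p) (l := l) S) := by
  apply Irreducible.prime
  apply fS_irreducible k h.surj h.pos S hS
  obtain ⟨a, ha, b, hb, hab⟩ := hS
  obtain ⟨j, hj, hj1⟩ := h.one a b hab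
  refine ⟨j, ?_, hj1⟩
  rcases hj with hj | hj
  · rw [hj]; exact ha
  · rw [hj]; exact hb

theorem trinomial_prime (h : Good p l) : Prime (trinomial k p l) := by
  rw [trinomial_eq]
  exact fS_prime k h _ ⟨0, Finset.mem_univ _, 1, Finset.mem_univ _, by decide⟩

theorem isDomain (h : Good p l) : IsDomain (TriAlg k p l) :=
  (Ideal.Quotient.isDomain_iff_prime _).2
    ((Ideal.span_singleton_prime (trinomial_prime k h).ne_zero).2 (trinomial_prime k h))

/-- set one variable to zero -/
noncomputable def kill (j : ι) : MvPolynomial ι k →ₐ[k] MvPolynomial ι k :=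
  aeval (fun a => if a = j then 0 else X a)

omit [Fintype ι] in
theorem kill_monomial (j : ι) (d : ι →₀ ℕ) (c : k) :
    kill k j (monomial d c) = if d j = 0 then monomial d c else 0 := by
  rw [kill, aeval_monomial]
  split_ifs with h
  · rw [monomial_eq, algebraMap_eq]
    congr 1
    apply Finsupp.prod_congr
    intro a ha
    rw [if_neg]
    rintro rfl
    exact (Finsupp.mem_support_iff.1 ha) h
  · rw [Finsupp.prod, Finset.prod_eq_zero (Finsupp.mem_support_iff.2 h)]
    · rw [mul_zero]
    · simp [h]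

omit [Fintype ι] [DecidableEq ι] in
theorem X_dvd_monomial (j : ι) (d : ι →₀ ℕ) (c : k) (h : d j ≠ 0) :
    (X j : MvPolynomial ι k) ∣ monomial d c := by
  refine ⟨monomial (d - Finsupp.single j 1) c, ?_⟩
  rw [X, monomial_mul, one_mul]
  congr 1
  rw [add_tsub_cancel_of_le]
  rw [Finsupp.single_le_iff]
  omega

omit [Fintype ι] in
theorem dvd_sub_kill (j : ι) (F : MvPolynomial ι k) : (X j : MvPolynomial ι k) ∣ F - kill k j F := by
  have h : F - kill k j F = ∑ d ∈ F.support,
      (monomial d (coeff d F) - kill k j (monomial d (coeff d F))) := by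
    conv_lhs => rw [F.as_sum]
    rw [map_sum, Finset.sum_sub_distrib]
  rw [h]
  apply Finset.dvd_sum
  intro d _
  rw [kill_monomial]
  split_ifs with hd
  · rw [sub_self]; exact dvd_zero _
  · rw [sub_zero]
    exact X_dvd_monomial k j d _ hd

theorem kill_fS (hl : ∀ j, 0 < l j) (j : ι) (S : Finset (Fin 3)) :
    kill k j (fS k (p := p) (l := l) S) = fS k (p := p) (l := l) (S.erase (p j)) := by
  classical
  rw [fS, map_sum, fS]
  rw [← Finset.sum_subset (Finset.erase_subset (p j) S)]
  · apply Finset.sum_congr rfl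
    intro i hi
    rw [kill_monomial, if_pos]
    rw [ev_apply, if_neg]
    intro h
    exact (Finset.ne_of_mem_erase hi) h.symm
  · intro i hi hi'
    rw [kill_monomial, if_neg]
    rw [ev_apply, if_pos]
    · exact (hl j).ne'
    · by_contra hne
      exact hi' (Finset.mem_erase.2 ⟨fun h => hne h.symm, hi⟩)

theorem T_dvd_iff (h : Good p l) (j : ι) (F : MvPolynomial ι k) :
    T k p l j ∣ (Ideal.Quotient.mk _ F : TriAlg k p l) ↔
      fS k (p := p) (l := l) (Finset.univ.erase (p j)) ∣ kill k j F := by
  constructor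
  · rintro ⟨G, hG⟩
    obtain ⟨G, rfl⟩ := Ideal.Quotient.mk_surjective G
    rw [T, ← map_mul, Ideal.Quotient.eq, Ideal.mem_span_singleton, trinomial_eq] at hG
    obtain ⟨H, hH⟩ := hG
    refine ⟨kill k j H, ?_⟩
    have := congrArg (kill k j) hH
    rw [map_mul, kill_fS k h.pos, map_sub, map_mul] at this
    have hX : kill k j (X j : MvPolynomial ι k) = 0 := by
      rw [X, kill_monomial]; simp
    rw [hX, zero_mul, sub_zero] at this
    exact this
  · rintro ⟨H, hH⟩
    obtain ⟨G, hG⟩ := dvd_sub_kill k j F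
    obtain ⟨G', hG'⟩ := X_dvd_monomial k j (ev p l (p j)) 1
      (by rw [ev_apply, if_pos rfl]; exact (h.pos j).ne')
    have hs : fS k (p := p) (l := l) Finset.univ =
        fS k (p := p) (l := l) (Finset.univ.erase (p j)) + monomial (ev p l (p j)) 1 := by
      rw [fS, fS, Finset.sum_erase_add _ _ (Finset.mem_univ (p j))]
    refine ⟨Ideal.Quotient.mk _ (G - G' * H), ?_⟩
    rw [T, ← map_mul, Ideal.Quotient.eq, Ideal.mem_span_singleton, trinomial_eq]
    refine ⟨H, ?_⟩
    have e1 : F = X j * G + kill k j F := by rw [← hG]; ring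
    rw [hs, hG', e1, hH]
    ring

theorem T_prime (h : Good p l) (j : ι) : Prime (T k p l j) := by
  have hf : Prime (fS k (p := p) (l := l) (Finset.univ.erase (p j))) := by
    apply fS_prime k h
    have : ∀ i : Fin 3, ∃ a ∈ Finset.univ.erase i, ∃ b ∈ Finset.univ.erase i, a ≠ b := by decide
    exact this (p j)
  refine ⟨?_, ?_, ?_⟩
  · intro h0
    rw [T, Ideal.Quotient.eq_zero_iff_mem, Ideal.mem_span_singleton] at h0
    have h1 : Associated (trinomial k p l) (X j) :=
      (trinomial_prime k h).irreducible.associated_of_dvd (X_prime (R := k) (i := j)).irreducible h0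
    obtain ⟨G, hG⟩ := h1.symm.dvd
    have := congrArg (kill k j) hG
    rw [map_mul, trinomial_eq, kill_fS k h.pos] at this
    have hX : kill k j (X j : MvPolynomial ι k) = 0 := by
      rw [X, kill_monomial]; simp
    rw [hX, zero_mul] at this
    exact hf.ne_zero this
  · intro hu
    have h1 : T k p l j ∣ (Ideal.Quotient.mk _ (1 : MvPolynomial ι k) : TriAlg k p l) := hu.dvd
    rw [T_dvd_iff k h, map_one] at h1
    exact hf.not_isUnit (isUnit_of_dvd_one h1)
  · intro x y hxy
    obtain ⟨F, rfl⟩ := Ideal.Quotient.mk_surjective x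
    obtain ⟨G, rfl⟩ := Ideal.Quotient.mk_surjective y
    rw [← map_mul, T_dvd_iff k h, map_mul] at hxy
    rw [T_dvd_iff k h, T_dvd_iff k h]
    exact hf.dvd_or_dvd hxy

theorem T_not_dvd (h : Good p l) {i j : ι} (hij : i ≠ j) : ¬ T k p l j ∣ T k p l i := by
  intro hd
  have hf : Prime (fS k (p := p) (l := l) (Finset.univ.erase (p j))) := by
    apply fS_prime k h
    have : ∀ i : Fin 3, ∃ a ∈ Finset.univ.erase i, ∃ b ∈ Finset.univ.erase i, a ≠ b := by decide
    exact this (p j)
  have hd' : T k p l j ∣ (Ideal.Quotient.mk _ (X i : MvPolynomial ι k) : TriAlg k p l) := hd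
  rw [T_dvd_iff k h] at hd'
  replace hd := hd'
  have hX : kill k j (X i : MvPolynomial ι k) = X i := by
    rw [X, kill_monomial, if_pos]; rw [Finsupp.single_apply, if_neg hij]
  rw [hX] at hd
  have h1 := hf.irreducible.associated_of_dvd (X_prime (R := k) (i := i)).irreducible hd
  obtain ⟨G, hG⟩ := h1.symm.dvd
  have := congrArg (kill k i) hG
  rw [map_mul, kill_fS k h.pos] at this
  have hX : kill k i (X i : MvPolynomial ι k) = 0 := by
    rw [X, kill_monomial]; simp
  rw [hX, zero_mul] at this
  -- a partial sum over a nonempty set is nonzero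
  have h3 : ∀ a b : Fin 3, ((Finset.univ.erase a).erase b).Nonempty := by decide
  obtain ⟨c, hc⟩ := h3 (p j) (p i)
  have h4 := coeff_fS k h.surj h.pos _ c hc
  rw [this] at h4
  simp at h4

/-- monomials in the classes of the variables -/
noncomputable def Tm (k : Type u) [Field k] {ι : Type v} [Fintype ι] [DecidableEq ι]
    (p : ι → Fin 3) (l : ι → ℕ) (d : ι →₀ ℕ) : TriAlg k p l :=
  Ideal.Quotient.mk _ (monomial d 1)

theorem Tm_add (d e : ι →₀ ℕ) : Tm k p l (d + e) = Tm k p l d * Tm k p l e := by
  rw [Tm, Tm, Tm, ← map_mul, monomial_mul, one_mul]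

theorem Tm_zero : Tm k p l 0 = 1 := by
  rw [Tm]; exact map_one _

theorem Tm_single (j : ι) (n : ℕ) : Tm k p l (Finsupp.single j n) = T k p l j ^ n := by
  rw [Tm, T, ← map_pow, X_pow_eq_monomial]

theorem Tm_eq_prod (d : ι →₀ ℕ) : Tm k p l d = ∏ j ∈ d.support, T k p l j ^ d j := by
  rw [Tm, monomial_eq, map_mul, C_1, map_one, one_mul, Finsupp.prod, map_prod]
  exact Finset.prod_congr rfl (fun j _ => by rw [T, map_pow])

theorem Tm_ne_zero (h : Good p l) (d : ι →₀ ℕ) : Tm k p l d ≠ 0 := by
  have := isDomain k h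
  rw [Tm_eq_prod]
  exact Finset.prod_ne_zero_iff.2 fun j _ => pow_ne_zero _ (T_prime k h j).ne_zero

/-- the three monomials in the algebra -/
noncomputable def A (k : Type u) [Field k] {ι : Type v} [Fintype ι] [DecidableEq ι]
    (p : ι → Fin 3) (l : ι → ℕ) (i : Fin 3) : TriAlg k p l := Tm k p l (ev p l i)

theorem A_sum : A k p l 0 + A k p l 1 + A k p l 2 = 0 := by
  rw [A, A, A, Tm, Tm, Tm, ← map_add, ← map_add, ← mono_eq, ← mono_eq, ← mono_eq, ← trinomial,
    Ideal.Quotient.eq_zero_iff_mem]
  exact Ideal.subset_span rfl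

theorem T_dvd_Tm (h : Good p l) (j : ι) (d : ι →₀ ℕ) : T k p l j ∣ Tm k p l d ↔ d j ≠ 0 := by
  have := isDomain k h
  constructor
  · intro hd h0
    rw [Tm_eq_prod, (T_prime k h j).dvd_finsetProd_iff] at hd
    obtain ⟨i, hi, hd⟩ := hd
    have h1 := (T_prime k h j).dvd_of_dvd_pow hd
    have : i = j := by
      by_contra hne
      exact T_not_dvd k h hne h1
    subst this
    exact (Finsupp.mem_support_iff.1 hi) h0
  · intro h0
    rw [Tm]
    exact map_dvd _ (X_dvd_monomial k j d 1 h0)

/-- cancellation of coprime factors -/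
theorem dvd_of_dvd_mul (h : Good p l) (N q : TriAlg k p l) (d : ι →₀ ℕ)
    (hN : ∀ j, d j ≠ 0 → ¬ T k p l j ∣ N) (hd : Tm k p l d ∣ N * q) : Tm k p l d ∣ q := by
  have := isDomain k h
  have key : ∀ S : Finset ι, S ⊆ d.support → (∏ j ∈ S, T k p l j ^ d j) ∣ q := by
    intro S
    induction S using Finset.induction_on with
    | empty => intro _; simp
    | insert a S ha ih =>
      intro hS
      obtain ⟨q', hq'⟩ := ih (fun x hx => hS (Finset.mem_insert_of_mem hx))
      have haS : a ∈ d.support := hS (Finset.mem_insert_self a S)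
      rw [Finset.prod_insert ha]
      have h1 : (∏ j ∈ insert a S, T k p l j ^ d j) ∣ N * q :=
        (Finset.prod_dvd_prod_of_subset _ _ _ hS).trans (by rwa [Tm_eq_prod] at hd)
      rw [Finset.prod_insert ha, hq'] at h1
      have hne : (∏ j ∈ S, T k p l j ^ d j) ≠ 0 :=
        Finset.prod_ne_zero_iff.2 fun j _ => pow_ne_zero _ (T_prime k h j).ne_zero
      have h2 : T k p l a ^ d a ∣ N * q' := by
        obtain ⟨r, hr⟩ := h1
        refine ⟨r, ?_⟩
        apply mul_left_cancel₀ hne
        linear_combination hr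
      have h3 : T k p l a ^ d a ∣ q' :=
        (T_prime k h a).pow_dvd_of_dvd_mul_left _ (hN a (Finsupp.mem_support_iff.1 haS)) h2
      rw [hq', mul_comm]
      exact mul_dvd_mul_left _ h3
  rw [Tm_eq_prod]
  exact key d.support (fun x hx => hx)

end

end Pool.Agent.V1154.Tri
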