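import Mathlib
import Pool.Agent.V1154.Tri.Alg

/-!
# Homogeneous elements of a trinomial algebra
-/

set_option autoImplicit false
set_option linter.unusedSectionVars false

open MvPolynomial

namespace Pool.Agent.V1154.Tri

universe u v

section

variable {k : Type u} [Field k] {ι : Type v} [Fintype ι] [DecidableEq ι]
  {p : ι → Fin 3} {l : ι → ℕ}

theorem mem_comp {u : GradGroup p l} {x : TriAlg k p l} :
    x ∈ comp k p l u ↔ ∃ F : MvPolynomial ι k, IsWeightedHomogeneous (degT p l) F u ∧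
      Ideal.Quotient.mk _ F = x := by
  rw [comp, Submodule.mem_map]
  rfl

theorem mul_mem_comp {u v : GradGroup p l} {x y : TriAlg k p l} (hx : x ∈ comp k p l u)
    (hy : y ∈ comp k p l v) : x * y ∈ comp k p l (u + v) := by
  rw [mem_comp] at *
  obtain ⟨F, hF, rfl⟩ := hx
  obtain ⟨G, hG, rfl⟩ := hy
  exact ⟨F * G, hF.mul hG, map_mul _ _ _⟩

theorem one_mem_comp : (1 : TriAlg k p l) ∈ comp k p l 0 := by
  rw [mem_comp]
  exact ⟨1, isWeightedHomogeneous_one k _, map_one _⟩

theorem pow_mem_comp {u : GradGroup p l} {x : TriAlg k p l} (hx : x ∈ comp k p l u) (n : ℕ) :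
    x ^ n ∈ comp k p l (n • u) := by
  induction n with
  | zero => rw [pow_zero, zero_smul]; exact one_mem_comp
  | succ n ih => rw [pow_succ, succ_nsmul]; exact mul_mem_comp ih hx

theorem Tm_mem_comp (d : ι →₀ ℕ) : Tm k p l d ∈ comp k p l (Finsupp.weight (degT p l) d) := by
  rw [mem_comp]
  exact ⟨monomial d 1, isWeightedHomogeneous_monomial _ _ _ rfl, rfl⟩

theorem T_mem_comp (j : ι) : T k p l j ∈ comp k p l (degT p l j) := by
  rw [mem_comp]
  exact ⟨X j, isWeightedHomogeneous_X _ _ _, rfl⟩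

theorem weight_eq (d : ι →₀ ℕ) :
    Finsupp.weight (degT p l) d = (QuotientAddGroup.mk (fun j => (d j : ℤ)) : GradGroup p l) := by
  rw [Finsupp.weight_apply, Finsupp.sum_fintype _ _ (fun j => zero_smul ℕ (degT p l j))]
  have h1 : (fun j => (d j : ℤ)) = ∑ j, d j • (Pi.single j (1 : ℤ) : ι → ℤ) := by
    ext a
    rw [Finset.sum_apply]
    simp [Pi.single_apply]
  rw [h1]
  have h2 : ∀ x : ι → ℤ, (QuotientAddGroup.mk x : GradGroup p l) =
    QuotientAddGroup.mk' (AddSubgroup.closure
      {expVec p l 0 - expVec p l 1, expVec p l 1 - expVec p l 2}) x := fun _ => rfl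
  rw [h2, map_sum]
  apply Finset.sum_congr rfl
  intro j _
  rw [map_nsmul]
  rfl

/-- the homomorphism `K → ℤ` given by integer weights of the variables -/
noncomputable def wt (p : ι → Fin 3) (l : ι → ℕ) (w : ι → ℤ)
    (h0 : ∑ j, (expVec p l 0 - expVec p l 1) j * w j = 0)
    (h1 : ∑ j, (expVec p l 1 - expVec p l 2) j * w j = 0) : GradGroup p l →+ ℤ :=
  QuotientAddGroup.lift _
    { toFun := fun m => ∑ j, m j * w j
      map_zero' := by simp
      map_add' := fun a b => by simp [add_mul, Finset.sum_add_distrib] } (by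
      rw [AddSubgroup.closure_le]
      intro x hx
      rcases hx with rfl | rfl
      · exact h0
      · exact h1)

theorem wt_mk (w : ι → ℤ) (h0 : ∑ j, (expVec p l 0 - expVec p l 1) j * w j = 0)
    (h1 : ∑ j, (expVec p l 1 - expVec p l 2) j * w j = 0) (m : ι → ℤ) :
    wt p l w h0 h1 (QuotientAddGroup.mk m) = ∑ j, m j * w j := rfl

theorem wt_degT (w : ι → ℤ) (h0 : ∑ j, (expVec p l 0 - expVec p l 1) j * w j = 0)
    (h1 : ∑ j, (expVec p l 1 - expVec p l 2) j * w j = 0) (i : ι) :
    wt p l w h0 h1 (degT p l i) = w i := by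
  rw [degT, wt_mk, Finset.sum_eq_single i]
  · simp
  · intro b _ hb
    rw [Pi.single_eq_of_ne hb, zero_mul]
  · intro h; exact absurd (Finset.mem_univ i) h

theorem dvd_of_wt (w : ι → ℤ) (h0 : ∑ j, (expVec p l 0 - expVec p l 1) j * w j = 0)
    (h1 : ∑ j, (expVec p l 1 - expVec p l 2) j * w j = 0) (i : ι) (hi : ∀ j, j ≠ i → w j ≤ 0)
    {u : GradGroup p l} {x : TriAlg k p l} (hx : x ∈ comp k p l u) (hu : 0 < wt p l w h0 h1 u) :
    T k p l i ∣ x := by
  rw [mem_comp] at hx
  obtain ⟨F, hF, rfl⟩ := hx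
  rw [F.as_sum, map_sum]
  apply Finset.dvd_sum
  intro d hd
  have hw := hF (mem_support_iff.1 hd)
  rw [weight_eq] at hw
  rw [← hw, wt_mk] at hu
  have hdi : d i ≠ 0 := by
    intro h
    apply absurd hu
    push Not
    apply Finset.sum_nonpos
    intro j _
    by_cases hj : j = i
    · rw [hj, h]; simp
    · exact mul_nonpos_of_nonneg_of_nonpos (Int.natCast_nonneg _) (hi j hj)
  exact map_dvd _ (X_dvd_monomial k i d _ hdi)

/-- at most one variable of each block is not in the kernel -/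
theorem at_most_one [CharZero k] (h : Good p l)
    (D : Derivation k (TriAlg k p l) (TriAlg k p l)) (hD : IsLND D)
    (w0 : GradGroup p l) (hw : ∀ u : GradGroup p l, ∀ x ∈ comp k p l u, D x ∈ comp k p l (u + w0))
    (i j : ι) (hij : i ≠ j) (hp : p i = p j) : D (T k p l i) = 0 ∨ D (T k p l j) = 0 := by
  have := isDomain k h
  -- the weights
  have hsum : ∀ a b : Fin 3, ∀ w : ι → ℤ,
      (∀ x, x ≠ i → x ≠ j → w x = 0) → w i * l i + w j * l j = 0 →
      ∑ x, (expVec p l a - expVec p l b) x * w x = 0 := by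
    intro a b w hw0 hw1
    rw [← Finset.sum_subset (Finset.subset_univ ({i, j} : Finset ι)), Finset.sum_pair hij]
    · simp only [Pi.sub_apply, expVec, hp]
      split_ifs
      · ring
      · linear_combination hw1
      · linear_combination -hw1
      · ring
    · intro x _ hx
      simp only [Finset.mem_insert, Finset.mem_singleton, not_or] at hx
      rw [hw0 x hx.1 hx.2, mul_zero]
  let w : ι → ℤ := fun x => if x = i then (l j : ℤ) else if x = j then -(l i : ℤ) else 0
  have hwi : w i = l j := by simp [w]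
  have hwj : w j = -(l i : ℤ) := by simp [w, hij.symm]
  have hwx : ∀ x, x ≠ i → x ≠ j → w x = 0 := by intro x h1 h2; simp [w, h1, h2]
  have hz : w i * l i + w j * l j = 0 := by rw [hwi, hwj]; ring
  have a0 := hsum 0 1 w hwx hz
  have a1 := hsum 1 2 w hwx hz
  have hwx' : ∀ x, x ≠ i → x ≠ j → (-w) x = 0 := by intro x h1 h2; simp [hwx x h1 h2]
  have hz' : (-w) i * l i + (-w) j * l j = 0 := by
    simp only [Pi.neg_apply]; linear_combination -hz
  have b0 := hsum 0 1 (-w) hwx' hz'
  have b1 := hsum 1 2 (-w) hwx' hz'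
  have hneg : ∀ u, wt p l (-w) b0 b1 u = - wt p l w a0 a1 u := by
    intro u
    obtain ⟨m, rfl⟩ := QuotientAddGroup.mk_surjective u
    rw [wt_mk, wt_mk, ← Finset.sum_neg_distrib]
    exact Finset.sum_congr rfl (fun x _ => by simp)
  have hli : (0 : ℤ) < l i := by exact_mod_cast h.pos i
  have hlj : (0 : ℤ) < l j := by exact_mod_cast h.pos j
  rcases lt_or_ge 0 (wt p l w a0 a1 (degT p l i + w0)) with hl | hl
  · left
    apply dvd_self_ker hD
    apply dvd_of_wt w a0 a1 i _ (hw _ _ (T_mem_comp i)) hl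
    intro x hx
    by_cases hxj : x = j
    · rw [hxj, hwj]; omega
    · rw [hwx x hx hxj]
  · right
    apply dvd_self_ker hD
    rw [map_add, wt_degT, hwi] at hl
    apply dvd_of_wt (-w) b0 b1 j _ (hw _ _ (T_mem_comp j))
    · rw [hneg, map_add, wt_degT, hwj]; omega
    · intro x hx
      by_cases hxi : x = i
      · rw [hxi, Pi.neg_apply, hwi]; omega
      · rw [hwx' x hxi hx]

end

end Pool.Agent.V1154.Tri
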