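import Mathlib
import Pool.Agent.V1154.Tri.Grad

/-!
# Factorisation of homogeneous elements into variables and linear forms in the monomials
-/

set_option autoImplicit false
set_option linter.unusedSectionVars false

open MvPolynomial

namespace Pool.Agent.V1154.Tri

universe u v

section

variable {k : Type u} [Field k] {ι : Type v} [Fintype ι] [DecidableEq ι]
  {p : ι → Fin 3} {l : ι → ℕ}

/-- splitting of binary forms, in a field -/
theorem split_form [IsAlgClosed k] {L : Type*} [Field L] [Algebra k L] (a b : L) (hb : b ≠ 0)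
    {X : Type*} (S : Finset X) (c : X → k) (e0 e1 e2 : X → ℕ) (N : ℕ)
    (hN : ∀ d ∈ S, e0 d + e1 d + e2 d = N) :
    ∃ (c0 : k) (e : ℕ) (s : Multiset k),
      ∑ d ∈ S, c d • (a ^ e0 d * b ^ e1 d * (-a - b) ^ e2 d) =
        c0 • (b ^ e * (s.map (fun ρ => a - ρ • b)).prod) := by
  classical
  let B : Polynomial k := ∑ d ∈ S, Polynomial.C (c d) *
    (Polynomial.X ^ e0 d * (-Polynomial.X - 1) ^ e2 d)
  have hB : B.natDegree ≤ N := by
    apply Polynomial.natDegree_sum_le_of_forall_le
    intro d hd
    refine (Polynomial.natDegree_C_mul_le _ _).trans ?_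
    refine Polynomial.natDegree_mul_le.trans ?_
    rw [Polynomial.natDegree_X_pow]
    have h1 : ((-Polynomial.X - 1 : Polynomial k) ^ e2 d).natDegree ≤ e2 d := by
      refine Polynomial.natDegree_pow_le.trans ?_
      have : (-Polynomial.X - 1 : Polynomial k).natDegree ≤ 1 := by
        refine (Polynomial.natDegree_sub_le _ _).trans ?_
        rw [Polynomial.natDegree_neg, Polynomial.natDegree_X, Polynomial.natDegree_one]
        simp
      calc e2 d * (-Polynomial.X - 1 : Polynomial k).natDegree ≤ e2 d * 1 :=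
            Nat.mul_le_mul_left _ this
        _ = e2 d := mul_one _
    have := hN d hd
    omega
  have hroots : B = Polynomial.C B.leadingCoeff *
      (B.roots.map (fun a => Polynomial.X - Polynomial.C a)).prod :=
    (IsAlgClosed.splits B).eq_prod_roots
  have hcard : Multiset.card B.roots ≤ N := (Polynomial.card_roots' B).trans hB
  refine ⟨B.leadingCoeff, N - Multiset.card B.roots, B.roots, ?_⟩
  -- left side
  have e1 : ∑ d ∈ S, c d • (a ^ e0 d * b ^ e1 d * (-a - b) ^ e2 d) =
      b ^ N * Polynomial.aeval (a / b) B := by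
    rw [map_sum, Finset.mul_sum]
    apply Finset.sum_congr rfl
    intro d hd
    rw [map_mul, map_mul, map_pow, map_pow, map_sub, map_neg, map_one, Polynomial.aeval_X,
      Polynomial.aeval_C, ← hN d hd, Algebra.smul_def]
    have h1 : a / b * b = a := div_mul_cancel₀ a hb
    have h2 : (-(a / b) - 1) * b = -a - b := by rw [sub_mul, neg_mul, h1, one_mul]
    rw [← h2]
    conv_lhs => rw [← h1]
    rw [div_mul_cancel₀ a hb, h2, ← h2]
    rw [mul_pow, pow_add, pow_add]
    have h3 : a ^ e0 d = (a / b) ^ e0 d * b ^ e0 d := by rw [← mul_pow, h1]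
    rw [h3]
    ring
  have e2 : ∀ s : Multiset k, (s.map (fun ρ => a - ρ • b)).prod =
      b ^ Multiset.card s * (s.map (fun ρ => a / b - algebraMap k L ρ)).prod := by
    intro s
    induction s using Multiset.induction_on with
    | empty => simp
    | cons ρ s ih =>
      rw [Multiset.map_cons, Multiset.prod_cons, ih, Multiset.map_cons, Multiset.prod_cons,
        Multiset.card_cons, pow_succ, Algebra.smul_def]
      have h1 : a = a / b * b := (div_mul_cancel₀ a hb).symm
      have h3 : a - algebraMap k L ρ * b = (a / b - algebraMap k L ρ) * b := by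
        rw [sub_mul, ← h1]
      rw [h3]
      ring
  rw [e1, e2]
  conv_lhs => rw [hroots]
  rw [map_mul, Polynomial.aeval_C, map_multiset_prod, Multiset.map_map, Algebra.smul_def]
  have e3 : (Polynomial.aeval (a / b)) ∘ (fun a => (Polynomial.X - Polynomial.C a : Polynomial k))
      = fun ρ => a / b - algebraMap k L ρ := by
    funext ρ; simp
  rw [e3]
  have e4 : b ^ N = b ^ (N - Multiset.card B.roots) * b ^ Multiset.card B.roots := by
    rw [← pow_add, Nat.sub_add_cancel hcard]
  rw [e4]
  ring

theorem hom_factor [IsAlgClosed k] (h : Good p l) {u : GradGroup p l} {x : TriAlg k p l}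
    (hx : x ∈ comp k p l u) (hx0 : x ≠ 0) :
    ∃ (c : k) (m : ι →₀ ℕ) (e : ℕ) (s : Multiset k),
      x = c • (Tm k p l m * (A k p l 1 ^ e * (s.map (fun ρ => A k p l 0 - ρ • A k p l 1)).prod)) := by
  classical
  have hdom := isDomain k h
  rw [mem_comp] at hx
  obtain ⟨F, hF, rfl⟩ := hx
  have hF0 : F ≠ 0 := by rintro rfl; exact hx0 (map_zero _)
  have hne : F.support.Nonempty := Finset.nonempty_iff_ne_empty.2 (fun h => hF0 (support_eq_empty.1 h))
  obtain ⟨d0, hd0⟩ := hne
  have key : ∀ d ∈ F.support, ∃ α : Fin 3 → ℤ, α 0 + α 1 + α 2 = 0 ∧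
      ∀ j, (d j : ℤ) = d0 j + α (p j) * l j := by
    intro d hd
    have h1 := hF (mem_support_iff.1 hd)
    rw [← hF (mem_support_iff.1 hd0), weight_eq, weight_eq] at h1
    have h2 := (QuotientAddGroup.eq).1 h1.symm
    rw [AddSubgroup.mem_closure_pair] at h2
    obtain ⟨s, t, hst⟩ := h2
    refine ⟨![s, t - s, -t], by simp, ?_⟩
    intro j
    have h3 := congrFun hst j
    simp only [Pi.add_apply, Pi.smul_apply, Pi.sub_apply, expVec, Pi.neg_apply, smul_eq_mul] at h3
    have h4 : p j = 0 ∨ p j = 1 ∨ p j = 2 := by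
      generalize p j = q; fin_cases q <;> simp
    rcases h4 with h4 | h4 | h4 <;> rw [h4] at h3 ⊢ <;> simp at h3 ⊢ <;> linarith
  choose! α hα0 hα using key
  -- the minima
  have hmin : ∀ i : Fin 3, ∃ d ∈ F.support, ∀ d' ∈ F.support, α d i ≤ α d' i := by
    intro i
    exact F.support.exists_min_image (fun d => α d i) ⟨d0, hd0⟩
  choose dm hdm hdm' using hmin
  let Am : Fin 3 → ℤ := fun i => α (dm i) i
  have hAm : ∀ i, ∀ d ∈ F.support, Am i ≤ α d i := fun i d hd => hdm' i d hd
  have hm0 : ∀ j, 0 ≤ (d0 j : ℤ) + Am (p j) * l j := by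
    intro j
    have := hα (dm (p j)) (hdm (p j)) j
    have h2 : (0 : ℤ) ≤ (dm (p j)) j := Int.natCast_nonneg _
    rw [this] at h2
    exact h2
  let m : ι →₀ ℕ := Finsupp.equivFunOnFinite.symm (fun j => ((d0 j : ℤ) + Am (p j) * l j).toNat)
  have hm : ∀ j, (m j : ℤ) = (d0 j : ℤ) + Am (p j) * l j := fun j => Int.toNat_of_nonneg (hm0 j)
  let β : (ι →₀ ℕ) → Fin 3 → ℕ := fun d i => (α d i - Am i).toNat
  have hβ : ∀ d ∈ F.support, ∀ i, (β d i : ℤ) = α d i - Am i := by
    intro d hd i
    have := hAm i d hd
    exact Int.toNat_of_nonneg (by omega)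
  have hd : ∀ d ∈ F.support, d = m + (β d 0 • ev p l 0 + β d 1 • ev p l 1 + β d 2 • ev p l 2) := by
    intro d hd
    ext j
    have h1 := hα d hd j
    have h2 := hm j
    have h3 := hβ d hd (p j)
    simp only [Finsupp.add_apply, Finsupp.smul_apply, ev_apply, smul_eq_mul]
    have h4 : p j = 0 ∨ p j = 1 ∨ p j = 2 := by
      generalize p j = q; fin_cases q <;> simp
    have h5 : (d j : ℤ) = m j + β d (p j) * l j := by rw [h1, h2, h3]; ring
    rcases h4 with h4 | h4 | h4 <;> rw [h4] at h5 ⊢ <;> simp <;> exact_mod_cast h5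
  let N : ℕ := (-(Am 0 + Am 1 + Am 2)).toNat
  have hN : ∀ d ∈ F.support, β d 0 + β d 1 + β d 2 = N := by
    intro d hd
    have h1 := hα0 d hd
    have h2 := hβ d hd 0
    have h3 := hβ d hd 1
    have h4 := hβ d hd 2
    have h5 : (N : ℤ) = -(Am 0 + Am 1 + Am 2) := by
      apply Int.toNat_of_nonneg
      have := hAm 0 d hd
      have := hAm 1 d hd
      have := hAm 2 d hd
      omega
    omega
  have hpow : ∀ (n : ℕ) (i : Fin 3), Tm k p l (n • ev p l i) = A k p l i ^ n := by
    intro n i
    induction n with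
    | zero => rw [zero_smul, Tm_zero, pow_zero]
    | succ n ih => rw [succ_nsmul, Tm_add, ih, pow_succ, A]
  have hA2 : A k p l 2 = -A k p l 0 - A k p l 1 := by
    have := A_sum k (p := p) (l := l)
    linear_combination this
  -- the element
  have hx : (Ideal.Quotient.mk _ F : TriAlg k p l) = Tm k p l m * ∑ d ∈ F.support, coeff d F •
      (A k p l 0 ^ β d 0 * A k p l 1 ^ β d 1 * (-A k p l 0 - A k p l 1) ^ β d 2) := by
    conv_lhs => rw [F.as_sum]
    rw [map_sum, Finset.mul_sum]
    apply Finset.sum_congr rfl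
    intro d hd'
    have h1 : (monomial d (coeff d F) : MvPolynomial ι k) = coeff d F • monomial d 1 := by
      rw [smul_monomial, smul_eq_mul, mul_one]
    have h2 : (Ideal.Quotient.mk _ (coeff d F • monomial d 1 : MvPolynomial ι k) : TriAlg k p l) =
        coeff d F • Tm k p l d := rfl
    have h3 : Tm k p l d = Tm k p l (m + (β d 0 • ev p l 0 + β d 1 • ev p l 1 +
      β d 2 • ev p l 2)) := congrArg _ (hd d hd')
    rw [h1, h2, h3, Tm_add, Tm_add, Tm_add, hpow, hpow, hpow, hA2, mul_smul_comm]
  let L := FractionRing (TriAlg k p l)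
  have hinj : Function.Injective (algebraMap (TriAlg k p l) L) := IsFractionRing.injective _ _
  have hb : algebraMap (TriAlg k p l) L (A k p l 1) ≠ 0 := by
    intro h0
    rw [map_eq_zero_iff _ hinj] at h0
    exact Tm_ne_zero k h _ h0
  obtain ⟨c0, e, s, hs⟩ := split_form (k := k) (algebraMap (TriAlg k p l) L (A k p l 0))
    (algebraMap (TriAlg k p l) L (A k p l 1)) hb F.support (fun d => coeff d F)
    (fun d => β d 0) (fun d => β d 1) (fun d => β d 2) N hN
  refine ⟨c0, m, e, s, ?_⟩
  rw [hx, ← mul_smul_comm]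
  congr 1
  apply hinj
  have hsm : ∀ (c : k) (y : TriAlg k p l), algebraMap (TriAlg k p l) L (c • y) =
      c • algebraMap (TriAlg k p l) L y := by
    intro c y
    rw [Algebra.smul_def c y, map_mul, ← IsScalarTower.algebraMap_apply, Algebra.smul_def]
  rw [map_sum]
  have e1 : ∑ d ∈ F.support, (algebraMap (TriAlg k p l) L) (coeff d F •
      (A k p l 0 ^ β d 0 * A k p l 1 ^ β d 1 * (-A k p l 0 - A k p l 1) ^ β d 2)) =
      ∑ d ∈ F.support, coeff d F • ((algebraMap (TriAlg k p l) L) (A k p l 0) ^ β d 0 *
        (algebraMap (TriAlg k p l) L) (A k p l 1) ^ β d 1 *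
        (-(algebraMap (TriAlg k p l) L) (A k p l 0) -
          (algebraMap (TriAlg k p l) L) (A k p l 1)) ^ β d 2) := by
    apply Finset.sum_congr rfl
    intro d _
    rw [hsm, map_mul, map_mul, map_pow, map_pow, map_pow, map_sub, map_neg]
  rw [e1, hs, hsm, map_mul, map_pow, map_multiset_prod, Multiset.map_map]
  congr 3
  apply Multiset.map_congr rfl
  intro ρ _
  rw [Function.comp_apply, map_sub, hsm]

attribute [local instance] MvPolynomial.weightedGradedAlgebra

theorem component_monomial_mul (d : ι →₀ ℕ) (H : MvPolynomial ι k) (v : GradGroup p l) :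
    weightedHomogeneousComponent (degT p l) (Finsupp.weight (degT p l) d + v)
      (monomial d (1 : k) * H) =
      monomial d 1 * weightedHomogeneousComponent (degT p l) v H := by
  classical
  ext e
  rw [coeff_weightedHomogeneousComponent, coeff_monomial_mul', coeff_monomial_mul']
  by_cases hde : d ≤ e
  · rw [if_pos hde, if_pos hde, coeff_weightedHomogeneousComponent]
    have h1 : Finsupp.weight (degT p l) e = Finsupp.weight (degT p l) d +
        Finsupp.weight (degT p l) (e - d) := by
      rw [← map_add, add_tsub_cancel_of_le hde]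
    rw [h1]
    simp only [add_right_inj]
    split_ifs <;> simp
  · rw [if_neg hde, if_neg hde, ite_self]

/-- if a monomial times `x` is homogeneous, then `x` is homogeneous -/
theorem hom_of_mul (h : Good p l) (d : ι →₀ ℕ) {u : GradGroup p l} {x : TriAlg k p l}
    (hx : Tm k p l d * x ∈ comp k p l u) :
    x ∈ comp k p l (u - Finsupp.weight (degT p l) d) := by
  classical
  have hdom := isDomain k h
  rw [mem_comp] at hx
  obtain ⟨F, hF, hFx⟩ := hx
  obtain ⟨H, rfl⟩ := Ideal.Quotient.mk_surjective x
  rw [Tm, ← map_mul, Ideal.Quotient.eq] at hFx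
  have hI : (Ideal.span {trinomial k p l}).IsHomogeneous
      (weightedHomogeneousSubmodule k (degT p l)) := by
    apply Ideal.homogeneous_span
    intro y hy
    rw [Set.mem_singleton_iff] at hy
    refine ⟨Finsupp.weight (degT p l) (ev p l 0), ?_⟩
    rw [hy, trinomial, mono_eq, mono_eq, mono_eq, mem_weightedHomogeneousSubmodule]
    have hev : ∀ i, (fun j => ((ev p l i) j : ℤ)) = expVec p l i := by
      intro i; funext j
      simp only [ev_apply, expVec]
      split_ifs <;> simp
    have e1 : Finsupp.weight (degT p l) (ev p l 1) = Finsupp.weight (degT p l) (ev p l 0) := by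
      rw [weight_eq, weight_eq, QuotientAddGroup.eq, hev, hev]
      apply AddSubgroup.subset_closure
      left
      rw [sub_eq_add_neg, add_comm]
    have e2 : Finsupp.weight (degT p l) (ev p l 2) = Finsupp.weight (degT p l) (ev p l 1) := by
      rw [weight_eq, weight_eq, QuotientAddGroup.eq, hev, hev]
      apply AddSubgroup.subset_closure
      right
      rw [Set.mem_singleton_iff, sub_eq_add_neg, add_comm]
    refine ((isWeightedHomogeneous_monomial _ _ _ rfl).add
      (isWeightedHomogeneous_monomial _ _ _ e1)).add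
      (isWeightedHomogeneous_monomial _ _ _ (e2.trans e1))
  set v := u - Finsupp.weight (degT p l) d with hv
  have huv : Finsupp.weight (degT p l) d + v = u := by rw [hv]; abel
  have h1 := weightedHomogeneousComponent_mem_of_mem k (degT p l) hI hFx u
  rw [map_sub, hF.weightedHomogeneousComponent_same, ← huv, component_monomial_mul] at h1
  have h2 : (monomial d (1 : k) : MvPolynomial ι k) *
      (H - weightedHomogeneousComponent (degT p l) v H) ∈ Ideal.span {trinomial k p l} := by
    have := Ideal.sub_mem _ hFx h1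
    have e : F - monomial d 1 * H - (F - monomial d (1 : k) *
        weightedHomogeneousComponent (degT p l) v H) = -(monomial d (1 : k) *
      (H - weightedHomogeneousComponent (degT p l) v H)) := by ring
    rw [e] at this
    exact (neg_mem_iff).1 this
  have hprime : (Ideal.span {trinomial k p l}).IsPrime :=
    (Ideal.Quotient.isDomain_iff_prime _).1 hdom
  have h3 : H - weightedHomogeneousComponent (degT p l) v H ∈ Ideal.span {trinomial k p l} := by
    rcases hprime.mem_or_mem h2 with h3 | h3
    · exfalso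
      apply Tm_ne_zero k h d
      rw [Tm, Ideal.Quotient.eq_zero_iff_mem]
      exact h3
    · exact h3
  rw [mem_comp]
  refine ⟨weightedHomogeneousComponent (degT p l) v H,
    weightedHomogeneousComponent_isWeightedHomogeneous _ _, ?_⟩
  rw [eq_comm, Ideal.Quotient.eq]
  exact h3

end

end Pool.Agent.V1154.Tri
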