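import Mathlib
import Pool.Agent.V1154.Tri.Fac

/-!
# Derivations of a trinomial algebra and the kernel argument
-/

set_option autoImplicit false
set_option linter.unusedSectionVars false

open MvPolynomial

namespace Pool.Agent.V1154.Tri

universe u v

section

variable {k : Type u} [Field k] {ι : Type v} [Fintype ι] [DecidableEq ι]
  {p : ι → Fin 3} {l : ι → ℕ}

theorem der_formula (D : Derivation k (TriAlg k p l) (TriAlg k p l)) (F : MvPolynomial ι k) :
    D (Ideal.Quotient.mk _ F) =
      ∑ j, (Ideal.Quotient.mk _ (pderiv j F) : TriAlg k p l) * D (T k p l j) := by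
  induction F using MvPolynomial.induction_on with
  | C a =>
    have h1 : (Ideal.Quotient.mk _ (C a : MvPolynomial ι k) : TriAlg k p l) =
        algebraMap k (TriAlg k p l) a := rfl
    rw [h1, D.map_algebraMap]
    simp
  | add F G hF hG =>
    rw [map_add, map_add, hF, hG, ← Finset.sum_add_distrib]
    apply Finset.sum_congr rfl
    intro j _
    rw [map_add, map_add, add_mul]
  | mul_X F i hF =>
    rw [map_mul, D.leibniz, hF, smul_eq_mul, smul_eq_mul, Finset.mul_sum]
    have h1 : ∀ j, (Ideal.Quotient.mk _ (pderiv j (F * X i)) : TriAlg k p l) =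
        Ideal.Quotient.mk _ F * (if i = j then 1 else 0) +
          T k p l i * Ideal.Quotient.mk _ (pderiv j F) := by
      intro j
      rw [(pderiv j).leibniz, map_add, smul_eq_mul, smul_eq_mul, map_mul, map_mul, pderiv_X, T]
      simp only [Pi.single_apply]
      split_ifs with h
      · rw [map_one]
      · rw [map_zero]
    simp only [h1, add_mul, Finset.sum_add_distrib]
    congr 1
    · rw [Finset.sum_eq_single i]
      · rw [if_pos rfl, mul_one, T]
      · intro b _ hb
        rw [if_neg (fun h => hb h.symm)]; ring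
      · intro h; exact absurd (Finset.mem_univ i) h
    · apply Finset.sum_congr rfl
      intro j _
      change T k p l i * _ = _
      ring

theorem der_ext (D1 D2 : Derivation k (TriAlg k p l) (TriAlg k p l))
    (h : ∀ j, D1 (T k p l j) = D2 (T k p l j)) (x : TriAlg k p l) : D1 x = D2 x := by
  obtain ⟨F, rfl⟩ := Ideal.Quotient.mk_surjective x
  rw [der_formula, der_formula]
  exact Finset.sum_congr rfl (fun j _ => by rw [h j])

theorem der_sum {X : Type*} (S : Finset X)
    (d : X → Derivation k (MvPolynomial ι k) (MvPolynomial ι k)) (F : MvPolynomial ι k) :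
    (∑ j ∈ S, d j) F = ∑ j ∈ S, d j F := by
  classical
  induction S using Finset.induction_on with
  | empty => simp
  | insert a S ha ih => rw [Finset.sum_insert ha, Finset.sum_insert ha, Derivation.add_apply, ih]

theorem exists_der (v : ι → TriAlg k p l)
    (hv : ∑ j, (Ideal.Quotient.mk _ (pderiv j (trinomial k p l)) : TriAlg k p l) * v j = 0) :
    ∃ δ : Derivation k (TriAlg k p l) (TriAlg k p l), ∀ j, δ (T k p l j) = v j := by
  choose V hV using fun j => Ideal.Quotient.mk_surjective (v j)
  let d : Derivation k (MvPolynomial ι k) (MvPolynomial ι k) := mkDerivation k V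
  have hd : ∀ F, d F = ∑ j, pderiv j F * V j := by
    intro F
    have h1 : d = ∑ j, V j • (pderiv j : Derivation k (MvPolynomial ι k) (MvPolynomial ι k)) := by
      apply derivation_ext
      intro i
      rw [mkDerivation_X, der_sum]
      simp only [Derivation.smul_apply, pderiv_X, Pi.single_apply, smul_eq_mul]
      simp
    rw [h1, der_sum]
    apply Finset.sum_congr rfl
    intro j _
    rw [Derivation.smul_apply, smul_eq_mul, mul_comm]
  have hsurj : Function.Surjective (Ideal.Quotient.mkₐ k (Ideal.span {trinomial k p l})) :=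
    Ideal.Quotient.mkₐ_surjective k _
  have hker : ∀ x, Ideal.Quotient.mkₐ k (Ideal.span {trinomial k p l}) x = 0 →
      Ideal.Quotient.mkₐ k (Ideal.span {trinomial k p l}) (d x) = 0 := by
    intro x hx
    have hx' : x ∈ Ideal.span {trinomial k p l} := by
      rw [← Ideal.Quotient.eq_zero_iff_mem]; exact hx
    rw [Ideal.mem_span_singleton] at hx'
    obtain ⟨H, rfl⟩ := hx'
    rw [d.leibniz, map_add, smul_eq_mul, smul_eq_mul, map_mul, map_mul]
    have h1 : Ideal.Quotient.mkₐ k (Ideal.span {trinomial k p l}) (trinomial k p l) = 0 := by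
      rw [Ideal.Quotient.mkₐ_eq_mk, Ideal.Quotient.eq_zero_iff_mem]
      exact Ideal.subset_span rfl
    have h2 : Ideal.Quotient.mkₐ k (Ideal.span {trinomial k p l}) (d (trinomial k p l)) = 0 := by
      rw [hd, map_sum, ← hv]
      apply Finset.sum_congr rfl
      intro j _
      rw [map_mul, Ideal.Quotient.mkₐ_eq_mk, hV]
    rw [h1, h2, zero_mul, mul_zero, add_zero]
  refine ⟨Derivation.liftOfSurjective hsurj hker, ?_⟩
  intro j
  have h1 := Derivation.liftOfSurjective_apply hsurj hker (X j)
  rw [mkDerivation_X] at h1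
  rw [Ideal.Quotient.mkₐ_eq_mk, hV] at h1
  exact h1

theorem part_eq (c : ι) :
    part k p l c = (l c : k) • Tm k p l (ev p l (p c) - Finsupp.single c 1) := by
  rw [part, mono_eq, pderiv_monomial, Tm]
  have : (monomial (ev p l (p c) - Finsupp.single c 1) (1 * ((ev p l (p c) c : ℕ) : k)) :
      MvPolynomial ι k) = (l c : k) • monomial (ev p l (p c) - Finsupp.single c 1) 1 := by
    rw [ev_apply, if_pos rfl, one_mul, smul_monomial, smul_eq_mul, mul_one]
  rw [this]
  rfl

theorem der_Tm (D : Derivation k (TriAlg k p l) (TriAlg k p l)) (c : ι) (d : ι →₀ ℕ)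
    (hk : ∀ j, j ≠ c → d j ≠ 0 → D (T k p l j) = 0) :
    D (Tm k p l d) = (d c : k) • (Tm k p l (d - Finsupp.single c 1) * D (T k p l c)) := by
  have h1 : D (Tm k p l (d.erase c)) = 0 := by
    rw [Tm_eq_prod]
    apply Finset.prod_induction _ (fun x => D x = 0)
    · intro a b ha hb
      rw [D.leibniz, ha, hb, smul_zero, smul_zero, add_zero]
    · exact D.map_one_eq_zero
    · intro j hj
      rw [Finsupp.support_erase, Finset.mem_erase] at hj
      rw [D.leibniz_pow, hk j hj.1 (Finsupp.mem_support_iff.1 hj.2), smul_zero, smul_zero]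
  have h2 : Tm k p l d = T k p l c ^ d c * Tm k p l (d.erase c) := by
    rw [← Tm_single, ← Tm_add, Finsupp.single_add_erase]
  rw [h2, D.leibniz, h1, smul_zero, zero_add, D.leibniz_pow, smul_eq_mul]
  by_cases hc : d c = 0
  · rw [hc]; simp
  · have h3 : d - Finsupp.single c 1 = Finsupp.single c (d c - 1) + d.erase c := by
      ext j
      rw [Finsupp.tsub_apply, Finsupp.add_apply]
      by_cases hj : j = c
      · subst hj; simp
      · rw [Finsupp.single_eq_of_ne hj, Finsupp.single_eq_of_ne hj, Finsupp.erase_ne hj]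
        simp
    rw [h3, Tm_add, Tm_single]
    simp only [smul_eq_mul]
    have h4 : ∀ y : TriAlg k p l, ((d c : ℕ) : k) • y = ((d c : ℕ) : TriAlg k p l) * y := by
      intro y
      rw [← nsmul_eq_mul]
      exact Nat.cast_smul_eq_nsmul k (d c) y
    rw [nsmul_eq_mul, h4]
    ring

/-- the derivation of a monomial of which all but one variables are killed -/
theorem der_A (D : Derivation k (TriAlg k p l) (TriAlg k p l)) (c : ι)
    (hk : ∀ j, j ≠ c → p j = p c → D (T k p l j) = 0) :
    D (A k p l (p c)) = part k p l c * D (T k p l c) := by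
  rw [A, der_Tm D c (ev p l (p c)), part_eq, ev_apply, if_pos rfl, smul_mul_assoc]
  intro j hj hj'
  apply hk j hj
  by_contra h
  exact hj' (by rw [ev_apply, if_neg h])

theorem A_dvd_of (c : ι) (h : Good p l) : T k p l c ∣ A k p l (p c) := by
  rw [A, T_dvd_Tm k h, ev_apply, if_pos rfl]
  exact (h.pos c).ne'

/-- The kernel argument: if no variable of a transversal `C` is killed, then some linear form `A 0 - ρ A 1` is killed. -/
theorem exists_linear [IsAlgClosed k] [CharZero k] (h : Good p l)
    (D : Derivation k (TriAlg k p l) (TriAlg k p l)) (hD : IsLND D) (w : GradGroup p l)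
    (hw : ∀ u : GradGroup p l, ∀ x ∈ comp k p l u, D x ∈ comp k p l (u + w))
    (C : Fin 3 → ι) (hC : ∀ i, p (C i) = i)
    (hn : ∀ i, D (T k p l (C i)) ≠ 0) :
    ∃ ρ : k, ρ ≠ 0 ∧ ρ ≠ -1 ∧ D (A k p l 0 - ρ • A k p l 1) = 0 := by
  classical
  have hdom := isDomain k h
  by_contra hcon
  push Not at hcon
  -- homogeneous elements of the kernel are multiples of monomials in the killed variables
  let S0 : Set (TriAlg k p l) := {x | ∃ j, (∀ i, j ≠ C i) ∧ x = T k p l j}
  have hAk : ∀ i, D (A k p l i) ≠ 0 := by
    intro i h0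
    have h1 : T k p l (C i) ∣ A k p l i := by
      have := A_dvd_of (k := k) (C i) h
      rwa [hC] at this
    exact hn i (ker_of_dvd hD (Tm_ne_zero k h _) h0 h1)
  have claim : ∀ (u : GradGroup p l) (x : TriAlg k p l), x ∈ comp k p l u → D x = 0 →
      x ∈ Algebra.adjoin k S0 := by
    intro u x hx hx0
    by_cases hxz : x = 0
    · rw [hxz]; exact zero_mem _
    obtain ⟨c, m, e, s, rfl⟩ := hom_factor h hx hxz
    have hc : c ≠ 0 := by rintro rfl; exact hxz (zero_smul _ _)
    have hy0 : Tm k p l m * (A k p l 1 ^ e * (s.map (fun ρ => A k p l 0 - ρ • A k p l 1)).prod) ≠ 0 := by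
      intro h0; exact hxz (by rw [h0, smul_zero])
    have hyk : D (Tm k p l m * (A k p l 1 ^ e *
        (s.map (fun ρ => A k p l 0 - ρ • A k p l 1)).prod)) = 0 := by
      rw [D.map_smul] at hx0
      exact (smul_eq_zero.1 hx0).resolve_left hc
    have hdv : ∀ z, z ∣ Tm k p l m * (A k p l 1 ^ e *
        (s.map (fun ρ => A k p l 0 - ρ • A k p l 1)).prod) → D z = 0 := fun z hz =>
      ker_of_dvd hD hy0 hyk hz
    have he : e = 0 := by
      by_contra he
      apply hAk 1
      apply hdv
      exact Dvd.dvd.mul_left (Dvd.dvd.mul_right (dvd_pow_self _ he) _) _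
    have hs : s = 0 := by
      by_contra hs
      obtain ⟨ρ, hρ⟩ := Multiset.exists_mem_of_ne_zero hs
      have h1 : D (A k p l 0 - ρ • A k p l 1) = 0 := by
        apply hdv
        apply Dvd.dvd.mul_left
        apply Dvd.dvd.mul_left
        exact Multiset.dvd_prod (Multiset.mem_map_of_mem _ hρ)
      by_cases hρ0 : ρ = 0
      · rw [hρ0, zero_smul, sub_zero] at h1
        exact hAk 0 h1
      · by_cases hρ1 : ρ = -1
        · apply hAk 2
          have h2 := A_sum k (p := p) (l := l)
          have h3 : A k p l 2 = -(A k p l 0 - ρ • A k p l 1) := by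
            rw [hρ1, neg_smul, one_smul]
            linear_combination h2
          rw [h3, map_neg, h1, neg_zero]
        · exact hcon ρ hρ0 hρ1 h1
    rw [he, hs, pow_zero, Multiset.map_zero, Multiset.prod_zero, mul_one, mul_one]
    apply Subalgebra.smul_mem
    rw [Tm_eq_prod]
    apply Subalgebra.prod_mem
    intro j hj
    apply Subalgebra.pow_mem
    apply Algebra.subset_adjoin
    refine ⟨j, ?_, rfl⟩
    intro i hji
    apply hn i
    rw [← hji]
    apply hdv
    apply Dvd.dvd.mul_right
    rw [T_dvd_Tm k h]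
    exact Finsupp.mem_support_iff.1 hj
  -- a homogeneous slice
  have hT0 : T k p l (C 0) ≠ 0 := (T_prime k h _).ne_zero
  obtain ⟨n, hn0⟩ := exists_ord hD hT0
  have hiter : ∀ (n : ℕ) (u : GradGroup p l) (x : TriAlg k p l), x ∈ comp k p l u →
      (⇑D)^[n] x ∈ comp k p l (u + n • w) := by
    intro n
    induction n with
    | zero => intro u x hx; simpa using hx
    | succ n ih =>
      intro u x hx
      rw [Function.iterate_succ_apply', succ_nsmul, ← add_assoc]
      exact hw _ _ (ih u x hx)
  cases n with
  | zero => exact hn 0 hn0.2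
  | succ n =>
  set r := (⇑D)^[n] (T k p l (C 0)) with hr
  have hDr : D r = (⇑D)^[n + 1] (T k p l (C 0)) := by rw [Function.iterate_succ_apply']
  have ha0 : D r ≠ 0 := by rw [hDr]; exact hn0.1
  have ha1 : D (D r) = 0 := by
    rw [hDr, ← Function.iterate_succ_apply' (⇑D)]; exact hn0.2
  obtain ⟨ur, hur⟩ : ∃ ur, r ∈ comp k p l ur := ⟨_, hiter n _ _ (T_mem_comp (C 0))⟩
  have hua : D r ∈ comp k p l (ur + w) := hw _ _ hur
  let S1 : Set (TriAlg k p l) := insert r S0
  have hS01 : Algebra.adjoin k S0 ≤ Algebra.adjoin k S1 :=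
    Algebra.adjoin_mono (Set.subset_insert _ _)
  have hr1 : r ∈ Algebra.adjoin k S1 := Algebra.subset_adjoin (Set.mem_insert _ _)
  have haS : D r ∈ Algebra.adjoin k S1 := hS01 (claim _ _ hua ha1)
  have key : ∀ (m : ℕ) (u : GradGroup p l) (f : TriAlg k p l), f ∈ comp k p l u →
      (⇑D)^[m] f = 0 → ∃ N : ℕ, (D r) ^ N * f ∈ Algebra.adjoin k S1 := by
    intro m
    induction m with
    | zero =>
      intro u f _ hf
      have hf' : f = 0 := hf
      exact ⟨0, by rw [hf', mul_zero]; exact zero_mem _⟩
    | succ m ih =>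
      intro u f hf hfm
      -- the top coefficient
      have hc : D ((⇑D)^[m] f) = 0 := by
        rw [← Function.iterate_succ_apply' (⇑D)]; exact hfm
      have hcu : (⇑D)^[m] f ∈ comp k p l (u + m • w) := hiter m u f hf
      have hcS : (⇑D)^[m] f ∈ Algebra.adjoin k S1 := hS01 (claim _ _ hcu hc)
      let g : TriAlg k p l := ((m.factorial : ℕ) : k) • ((D r) ^ m * f) - (⇑D)^[m] f * r ^ m
      have hg : g ∈ comp k p l (m • (ur + w) + u) := by
        apply Submodule.sub_mem
        · apply Submodule.smul_mem
          exact mul_mem_comp (pow_mem_comp hua m) hf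
        · have h1 := mul_mem_comp hcu (pow_mem_comp hur m)
          have h2 : u + m • w + m • ur = m • (ur + w) + u := by rw [nsmul_add]; abel
          rwa [h2] at h1
      have hgm : (⇑D)^[m] g = 0 := by
        have hpk : D ((D r) ^ m) = 0 := by rw [D.leibniz_pow, ha1, smul_zero, smul_zero]
        rw [iter_sub, iter_smul, iter_mul_ker hpk, iter_mul_ker hc, iter_pow_slice ha1]
        rw [Algebra.smul_def, map_natCast, nsmul_eq_mul]
        ring
      obtain ⟨N, hN⟩ := ih _ g hg hgm
      refine ⟨N + m, ?_⟩
      have h1 : ((m.factorial : ℕ) : k) • ((D r) ^ (N + m) * f) =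
          (D r) ^ N * g + (D r) ^ N * ((⇑D)^[m] f * r ^ m) := by
        simp only [g]
        rw [mul_sub, sub_add_cancel, mul_smul_comm, pow_add, mul_assoc]
      have h2 : ((m.factorial : ℕ) : k) ≠ 0 := Nat.cast_ne_zero.2 (Nat.factorial_ne_zero m)
      have h3 : (D r) ^ (N + m) * f = ((m.factorial : ℕ) : k)⁻¹ • ((D r) ^ N * g +
          (D r) ^ N * ((⇑D)^[m] f * r ^ m)) := by
        rw [← h1, smul_smul, inv_mul_cancel₀ h2, one_smul]
      rw [h3]
      apply Subalgebra.smul_mem
      apply Subalgebra.add_mem _ hN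
      apply Subalgebra.mul_mem _ (Subalgebra.pow_mem _ haS _)
      exact Subalgebra.mul_mem _ hcS (Subalgebra.pow_mem _ hr1 _)
  -- the algebra is algebraic over the subalgebra generated by `S1`
  have halgT : ∀ j, IsAlgebraic (Algebra.adjoin k S1) (T k p l j) := by
    intro j
    obtain ⟨m, hm⟩ := hD (T k p l j)
    obtain ⟨N, hN⟩ := key m _ _ (T_mem_comp j) hm
    have hne : (D r) ^ N ≠ 0 := pow_ne_zero _ ha0
    apply IsAlgebraic.of_mul (y := (D r) ^ N) (mem_nonZeroDivisors_of_ne_zero hne)
    · have h1 : (D r) ^ N = algebraMap (Algebra.adjoin k S1) (TriAlg k p l)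
          ⟨(D r) ^ N, Subalgebra.pow_mem _ haS N⟩ := rfl
      rw [h1]
      exact isAlgebraic_algebraMap _
    · have h1 : (D r) ^ N * T k p l j = algebraMap (Algebra.adjoin k S1) (TriAlg k p l)
          ⟨(D r) ^ N * T k p l j, hN⟩ := rfl
      rw [h1]
      exact isAlgebraic_algebraMap _
  have halg : Algebra.IsAlgebraic (Algebra.adjoin k S1) (TriAlg k p l) := by
    refine ⟨fun x => ?_⟩
    obtain ⟨F, rfl⟩ := Ideal.Quotient.mk_surjective x
    induction F using MvPolynomial.induction_on with
    | C a =>
      have h1 : (Ideal.Quotient.mk _ (MvPolynomial.C a : MvPolynomial ι k) : TriAlg k p l) =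
        algebraMap (Algebra.adjoin k S1) (TriAlg k p l) (algebraMap k _ a) := rfl
      rw [h1]
      exact isAlgebraic_algebraMap _
    | add F G hF hG => rw [map_add]; exact hF.add hG
    | mul_X F i hF => rw [map_mul]; exact hF.mul (halgT i)
  have hle : Algebra.trdeg k (TriAlg k p l) ≤ Cardinal.mk S1 :=
    Algebra.IsAlgebraic.trdeg_le_cardinalMk k S1
  -- many algebraically independent elements
  let J : Type v := {j : ι // j ≠ C 2}
  have hind : AlgebraicIndependent k (fun j : J => T k p l j.1) := by
    rw [algebraicIndependent_iff]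
    intro F hF
    have h1 : aeval (fun j : J => T k p l j.1) F =
        Ideal.Quotient.mk _ (rename (fun j : J => j.1) F) := by
      have h2 : (aeval (fun j : J => T k p l j.1) : MvPolynomial J k →ₐ[k] TriAlg k p l) =
          (Ideal.Quotient.mkₐ k (Ideal.span {trinomial k p l})).comp
            (rename (fun j : J => j.1)) := by
        apply MvPolynomial.algHom_ext
        intro j
        simp [T]
      rw [h2]
      rfl
    rw [h1, Ideal.Quotient.eq_zero_iff_mem, Ideal.mem_span_singleton] at hF
    obtain ⟨H, hH⟩ := hF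
    by_contra hF0
    have h2 : rename (fun j : J => j.1) F ≠ 0 := by
      intro h0
      exact hF0 (rename_injective _ Subtype.val_injective (by rw [h0, map_zero]))
    have hH0 : H ≠ 0 := by
      rintro rfl
      exact h2 (by rw [hH, mul_zero])
    have h3 : degreeOf (C 2) (rename (fun j : J => j.1) F) = 0 := by
      rw [degreeOf_eq_sup]
      apply Nat.le_zero.1
      apply Finset.sup_le
      intro m hm
      obtain ⟨m', rfl, -⟩ := coeff_rename_ne_zero _ _ _ (mem_support_iff.1 hm)
      rw [Finsupp.mapDomain_of_notMem_range]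
      rintro ⟨j, hj⟩
      exact j.2 hj
    have h4 : 1 ≤ degreeOf (C 2) (trinomial k p l) := by
      rw [degreeOf_eq_sup, trinomial_eq, support_fS k h.surj h.pos]
      refine le_trans ?_ (Finset.le_sup (f := fun m : ι →₀ ℕ => m (C 2))
        (Finset.mem_image_of_mem _ (Finset.mem_univ (2 : Fin 3))))
      simp only [ev_apply, hC, if_true]
      exact h.pos _
    rw [hH, degreeOf_mul_eq (trinomial_prime k h).ne_zero hH0] at h3
    omega
  have hge := hind.lift_cardinalMk_le_trdeg
  have hCinj : Function.Injective C := fun a b hab => by rw [← hC a, ← hC b, hab]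
  let Z : Finset ι := Finset.univ \ Finset.univ.image C
  have hZ : Z.card + 3 = Fintype.card ι := by
    have h1 : (Finset.univ.image C).card = 3 := by
      rw [Finset.card_image_of_injective _ hCinj]; rfl
    have h2 := Finset.card_sdiff_add_card_eq_card (Finset.subset_univ (Finset.univ.image C))
    rw [h1] at h2
    exact h2
  have hS1 : S1 ⊆ ((insert r (Z.image (T k p l)) : Finset (TriAlg k p l)) : Set (TriAlg k p l)) := by
    rintro x (rfl | ⟨j, hj, rfl⟩)
    · exact Finset.mem_coe.2 (Finset.mem_insert_self _ _)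
    · apply Finset.mem_coe.2
      apply Finset.mem_insert_of_mem
      apply Finset.mem_image_of_mem
      rw [Finset.mem_sdiff]
      refine ⟨Finset.mem_univ _, ?_⟩
      rw [Finset.mem_image]
      rintro ⟨i, _, hi⟩
      exact hj i hi.symm
  have hcard : Cardinal.mk S1 ≤ ((Z.card + 1 : ℕ) : Cardinal) := by
    refine (Cardinal.mk_le_mk_of_subset hS1).trans ?_
    have h1 : Cardinal.mk ((insert r (Z.image (T k p l)) : Finset (TriAlg k p l)) :
        Set (TriAlg k p l)) = ((insert r (Z.image (T k p l))).card : Cardinal) :=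
      Cardinal.mk_coe_finset
    rw [h1]
    exact_mod_cast (Finset.card_insert_le _ _).trans
      (Nat.succ_le_succ Finset.card_image_le)
  have hJ : Cardinal.mk J = ((Fintype.card ι - 1 : ℕ) : Cardinal) := by
    rw [Cardinal.mk_fintype]
    congr 1
    have := Fintype.card_subtype_compl (fun j : ι => j = C 2)
    rw [Fintype.card_subtype_eq] at this
    exact this
  have hfin := hge.trans (Cardinal.lift_le.2 (hle.trans hcard))
  rw [hJ, Cardinal.lift_natCast, Cardinal.lift_natCast, Nat.cast_le] at hfin
  omega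

end

end Pool.Agent.V1154.Tri
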