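import Mathlib
import Pool.Agent.V1154.Tri.Ker

/-!
# Homogeneous locally nilpotent derivations of trinomial algebras are elementary
-/

set_option autoImplicit false
set_option linter.unusedSectionVars false

open MvPolynomial

namespace Pool.Agent.V1154.Tri

universe u v

section

variable {k : Type u} [Field k] {ι : Type v} [Fintype ι] [DecidableEq ι]
  {p : ι → Fin 3} {l : ι → ℕ}

theorem part_trinomial (c : ι) :
    (Ideal.Quotient.mk _ (pderiv c (trinomial k p l)) : TriAlg k p l) = part k p l c := by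
  rw [part]
  congr 1
  have h1 : ∀ i, i ≠ p c → pderiv c (mono k p l i) = 0 := by
    intro i hi
    rw [mono_eq, pderiv_monomial, ev_apply, if_neg (fun h => hi h.symm)]
    simp
  have h4 : p c = 0 ∨ p c = 1 ∨ p c = 2 := by
    generalize p c = q; fin_cases q <;> simp
  rw [trinomial, map_add, map_add]
  rcases h4 with h4 | h4 | h4
  · rw [h1 1 (by rw [h4]; decide), h1 2 (by rw [h4]; decide), h4, add_zero, add_zero]
  · rw [h1 0 (by rw [h4]; decide), h1 2 (by rw [h4]; decide), h4, add_zero, zero_add]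
  · rw [h1 0 (by rw [h4]; decide), h1 1 (by rw [h4]; decide), h4, zero_add, zero_add]

theorem sum_three {R : Type*} [CommRing R] (f : Fin 3 → R) (i0 a b : Fin 3) (h1 : a ≠ b)
    (h2 : a ≠ i0) (h3 : b ≠ i0) : f 0 + f 1 + f 2 = f i0 + f a + f b := by
  fin_cases i0 <;> fin_cases a <;> fin_cases b <;> simp at h1 h2 h3 ⊢ <;> ring

theorem build (C : Fin 3 → ι) (hC : ∀ i, p (C i) = i) (y : Fin 3 → TriAlg k p l)
    (hy : part k p l (C 0) * y 0 + part k p l (C 1) * y 1 + part k p l (C 2) * y 2 = 0) :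
    ∃ δ : Derivation k (TriAlg k p l) (TriAlg k p l),
      (∀ j, (∀ i, j ≠ C i) → δ (T k p l j) = 0) ∧ ∀ i, δ (T k p l (C i)) = y i := by
  have hCinj : Function.Injective C := fun a b hab => by rw [← hC a, ← hC b, hab]
  obtain ⟨δ, hδ⟩ := exists_der (k := k) (p := p) (l := l)
    (fun j => if j = C (p j) then y (p j) else 0) (by
      rw [← Finset.sum_subset (Finset.subset_univ (Finset.univ.image C))]
      · rw [Finset.sum_image (fun a _ b _ hab => hCinj hab), Fin.sum_univ_three]
        rw [part_trinomial, part_trinomial, part_trinomial, hC, hC, hC, if_pos rfl, if_pos rfl,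
          if_pos rfl]
        exact hy
      · intro j _ hj
        rw [if_neg, mul_zero]
        intro h
        exact hj (Finset.mem_image.2 ⟨p j, Finset.mem_univ _, h.symm⟩))
  refine ⟨δ, ?_, ?_⟩
  · intro j hj
    rw [hδ, if_neg (hj (p j))]
  · intro i
    rw [hδ, hC, if_pos rfl]

/-- derivations of type (ii) -/
theorem basic_two (C : Fin 3 → ι) (hC : ∀ i, p (C i) = i) (i0 a b : Fin 3) (h1 : a ≠ b)
    (h2 : a ≠ i0) (h3 : b ≠ i0)
    (hl : ∀ i i', i ≠ i0 → i' ≠ i0 → i ≠ i' → l (C i) = 1 ∨ l (C i') = 1) :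
    ∃ (δ : Derivation k (TriAlg k p l) (TriAlg k p l)) (β : Fin 3 → k), IsBasic k p l δ C β ∧
      (∀ j, (∀ i, j ≠ C i) → δ (T k p l j) = 0) ∧ δ (T k p l (C i0)) = 0 ∧
      δ (T k p l (C a)) = part k p l (C b) ∧ δ (T k p l (C b)) = - part k p l (C a) := by
  let β : Fin 3 → k := fun i => if i = a then 1 else if i = b then -1 else 0
  have hβa : β a = 1 := if_pos rfl
  have hβb : β b = -1 := by simp only [β]; rw [if_neg h1.symm]; simp
  have hβ0 : β i0 = 0 := by simp only [β]; rw [if_neg h2.symm, if_neg h3.symm]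
  let y : Fin 3 → TriAlg k p l := fun i =>
    β i • ∏ i' ∈ (Finset.univ.erase i).erase i0, part k p l (C i')
  have e1 : ∀ i0 a b : Fin 3, a ≠ b → a ≠ i0 → b ≠ i0 → (Finset.univ.erase a).erase i0 = {b} := by
    decide
  have hya : y a = part k p l (C b) := by
    simp only [y]; rw [hβa, e1 i0 a b h1 h2 h3, Finset.prod_singleton, one_smul]
  have hyb : y b = - part k p l (C a) := by
    simp only [y]; rw [hβb, e1 i0 b a h1.symm h3 h2, Finset.prod_singleton, neg_smul, one_smul]
  have hy0 : y i0 = 0 := by simp only [y]; rw [hβ0, zero_smul]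
  have hsum : part k p l (C 0) * y 0 + part k p l (C 1) * y 1 + part k p l (C 2) * y 2 = 0 := by
    rw [sum_three (fun i => part k p l (C i) * y i) i0 a b h1 h2 h3, hya, hyb, hy0]; ring
  obtain ⟨δ, hδ1, hδ2⟩ := build C hC y hsum
  refine ⟨δ, β, ⟨hC, ?_, hδ1, Or.inr ⟨i0, hβ0, ?_, hl, hδ2⟩⟩, hδ1, ?_, ?_, ?_⟩
  · rw [sum_three β i0 a b h1 h2 h3, hβa, hβb, hβ0]; ring
  · have e2 : ∀ i0 a b i : Fin 3, a ≠ b → a ≠ i0 → b ≠ i0 → i ≠ i0 → i = a ∨ i = b := by decide
    intro i hi
    rcases e2 i0 a b i h1 h2 h3 hi with rfl | rfl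
    · rw [hβa]; exact one_ne_zero
    · rw [hβb]; exact neg_ne_zero.2 one_ne_zero
  · rw [hδ2, hy0]
  · rw [hδ2, hya]
  · rw [hδ2, hyb]

theorem main [IsAlgClosed k] [CharZero k] (h : Good p l)
    (D : Derivation k (TriAlg k p l) (TriAlg k p l)) (hD : IsLND D) (hom : IsHomDer k p l D) :
    IsElementary k p l D := by
  classical
  have hdom := isDomain k h
  obtain ⟨w, hw⟩ := hom
  have hamo := at_most_one h D hD w hw
  have hCex : ∀ i, ∃ c, p c = i ∧ ∀ j, p j = i → j ≠ c → D (T k p l j) = 0 := by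
    intro i
    by_cases hex : ∃ j, p j = i ∧ D (T k p l j) ≠ 0
    · obtain ⟨c, hc, hcD⟩ := hex
      refine ⟨c, hc, ?_⟩
      intro j hj hjc
      exact (hamo j c hjc (hj.trans hc.symm)).resolve_right hcD
    · push Not at hex
      obtain ⟨c, hc⟩ := h.surj i
      exact ⟨c, hc, fun j hj _ => hex j hj⟩
  choose C hC hk using hCex
  have hkill : ∀ j, (∀ i, j ≠ C i) → D (T k p l j) = 0 := fun j hj => hk (p j) j rfl (hj (p j))
  -- notation
  set x : Fin 3 → TriAlg k p l := fun i => D (T k p l (C i)) with hx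
  set P : Fin 3 → TriAlg k p l := fun i => part k p l (C i) with hP
  set dI : Fin 3 → ι →₀ ℕ := fun i => ev p l i - Finsupp.single (C i) 1 with hdI
  have hPM : ∀ i, P i = (l (C i) : k) • Tm k p l (dI i) := by
    intro i
    simp only [hP, hdI]
    rw [part_eq, hC]
  have hlk : ∀ i, (l (C i) : k) ≠ 0 := fun i => Nat.cast_ne_zero.2 (h.pos _).ne'
  have hMP : ∀ i, Tm k p l (dI i) = (l (C i) : k)⁻¹ • P i := by
    intro i
    rw [hPM, smul_smul, inv_mul_cancel₀ (hlk i), one_smul]
  have hPne : ∀ i, P i ≠ 0 := by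
    intro i
    rw [hPM]
    exact smul_ne_zero (hlk i) (Tm_ne_zero k h _)
  have hder : ∀ i, D (A k p l i) = P i * x i := by
    intro i
    have := der_A D (C i) (fun j hj hj' => hk i j (hj'.trans (hC i)) hj)
    rwa [hC] at this
  have hsum : P 0 * x 0 + P 1 * x 1 + P 2 * x 2 = 0 := by
    rw [← hder, ← hder, ← hder, ← map_add, ← map_add, A_sum, map_zero]
  have hTM : ∀ j i, T k p l j ∣ Tm k p l (dI i) → p j = i := by
    intro j i hji
    rw [T_dvd_Tm k h] at hji
    by_contra hne
    apply hji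
    simp only [hdI]
    rw [Finsupp.tsub_apply, ev_apply, if_neg hne, Nat.zero_sub]
  have hTdI : ∀ j i, dI i j ≠ 0 → p j = i := by
    intro j i hji
    exact hTM j i ((T_dvd_Tm k h j _).2 hji)
  have hMdP : ∀ i, Tm k p l (dI i) ∣ P i := fun i => by
    refine ⟨(l (C i) : k) • 1, ?_⟩
    rw [hPM, mul_smul_comm, mul_one]
  have hsm : ∀ (c : k) (y : TriAlg k p l), c • y = (algebraMap k (TriAlg k p l) c) * y :=
    fun c y => Algebra.smul_def c y
  have hTP : ∀ i, l (C i) ≠ 1 → T k p l (C i) ∣ P i := by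
    intro i hi
    refine dvd_trans ((T_dvd_Tm k h _ _).2 ?_) (hMdP i)
    simp only [hdI]
    rw [Finsupp.tsub_apply, ev_apply, if_pos (hC i), Finsupp.single_eq_same]
    have := h.pos (C i)
    omega
  -- the final step, common to all cases
  have hfinal : ∀ (δ : Derivation k (TriAlg k p l) (TriAlg k p l)) (β : Fin 3 → k)
      (q : TriAlg k p l), IsBasic k p l δ C β → (∀ i, x i = q * δ (T k p l (C i))) →
      (∀ j, (∀ i, j ≠ C i) → δ (T k p l j) = 0) → (∃ u, q ∈ comp k p l u) →
      (∃ i, x i ≠ 0) → IsElementary k p l D := by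
    intro δ β q hb hq hδ hu hne
    have hDq : ∀ z, D z = q * δ z := by
      intro z
      have h1 := der_ext D (q • δ) (by
        intro j
        rw [Derivation.smul_apply, smul_eq_mul]
        by_cases hj : ∃ i, j = C i
        · obtain ⟨i, rfl⟩ := hj
          exact hq i
        · push Not at hj
          rw [hkill j hj, hδ j hj, mul_zero]) z
      rw [h1, Derivation.smul_apply, smul_eq_mul]
    obtain ⟨i, hi⟩ := hne
    have hq0 : q ≠ 0 := by
      rintro rfl
      exact hi (by rw [hq i, zero_mul])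
    have hDk : D q = 0 := factor_ker hD (hDq (T k p l (C i))) hi (fun y => ⟨_, hDq y⟩)
    refine ⟨C, β, δ, q, hb, hu, ?_, hDq⟩
    rw [hDq] at hDk
    exact (mul_eq_zero.1 hDk).resolve_left hq0
  by_cases h0 : ∀ i, x i = 0
  · -- the zero derivation
    have hone : ∃ i0 : Fin 3, ∀ i, i ≠ i0 → ∃ j, p j = i ∧ l j = 1 := by
      by_contra hcon
      push Not at hcon
      obtain ⟨i1, hi1, hn1⟩ := hcon 0
      obtain ⟨i2, hi2, hn2⟩ := hcon i1
      obtain ⟨j, hj, hj1⟩ := h.one i1 i2 hi2.symm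
      rcases hj with hj | hj
      · exact hn1 j hj hj1
      · exact hn2 j hj hj1
    obtain ⟨i0, hi0⟩ := hone
    have hC' : ∀ i, ∃ c, p c = i ∧ (i ≠ i0 → l c = 1) := by
      intro i
      by_cases hi : i = i0
      · obtain ⟨c, hc⟩ := h.surj i
        exact ⟨c, hc, fun hne => absurd hi hne⟩
      · obtain ⟨c, hc, hc1⟩ := hi0 i hi
        exact ⟨c, hc, fun _ => hc1⟩
    choose C' hC' hl' using hC'
    have e1 : ∀ i0 : Fin 3, ∃ a b : Fin 3, a ≠ b ∧ a ≠ i0 ∧ b ≠ i0 := by decide
    obtain ⟨a, b, hab, ha, hb⟩ := e1 i0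
    obtain ⟨δ, β, hb, -⟩ := basic_two (k := k) C' hC' i0 a b hab ha hb
      (fun i i' hi _ _ => Or.inl (hl' i hi))
    refine ⟨C', β, δ, 0, hb, ⟨0, zero_mem _⟩, map_zero _, ?_⟩
    intro z
    rw [zero_mul]
    have h1 := der_ext D 0 (by
      intro j
      rw [Derivation.zero_apply]
      by_cases hj : ∃ i, j = C i
      · obtain ⟨i, rfl⟩ := hj
        exact h0 i
      · push Not at hj
        exact hkill j hj) z
    rw [h1, Derivation.zero_apply]
  by_cases h3 : ∀ i, x i ≠ 0
  · -- type (i)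
    obtain ⟨ρ, hρ0, hρ1, hρ⟩ := exists_linear h D hD w hw C hC h3
    set θ := D (A k p l 1) with hθ
    let β : Fin 3 → k := ![ρ, 1, -(1 + ρ)]
    have hβne : ∀ i, β i ≠ 0 := by
      intro i
      fin_cases i
      · exact hρ0
      · exact one_ne_zero
      · change -(1 + ρ) ≠ 0
        intro hh
        apply hρ1
        linear_combination -hh
    have hβs : β 0 + β 1 + β 2 = 0 := by
      change ρ + 1 + -(1 + ρ) = 0
      ring
    have hPx : ∀ i, P i * x i = β i • θ := by
      have q0 : D (A k p l 0) = ρ • θ := by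
        rw [map_sub, D.map_smul, sub_eq_zero] at hρ
        exact hρ
      have q2 : D (A k p l 2) = (-(1 + ρ)) • θ := by
        have h1 : A k p l 2 = -A k p l 0 - A k p l 1 := by
          linear_combination A_sum k (p := p) (l := l)
        rw [h1, map_sub, map_neg, q0, ← hθ]
        module
      intro i
      rw [← hder]
      fin_cases i
      · exact q0
      · change θ = (1 : k) • θ
        rw [one_smul]
      · exact q2
    have hMθ : ∀ i, Tm k p l (dI i) ∣ θ := by
      intro i
      have h1 : θ = (β i)⁻¹ • (P i * x i) := by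
        rw [hPx, smul_smul, inv_mul_cancel₀ (hβne i), one_smul]
      rw [h1, ← mul_smul_comm]
      exact Dvd.dvd.mul_right (hMdP i) _
    obtain ⟨q0, hq0⟩ := hMθ 0
    have hd1 : Tm k p l (dI 1) ∣ q0 := by
      apply dvd_of_dvd_mul k h (Tm k p l (dI 0)) q0 (dI 1)
      · intro j hj hj'
        have := hTM j 0 hj'
        rw [hTdI j 1 hj] at this
        exact absurd this (by decide)
      · rw [← hq0]; exact hMθ 1
    obtain ⟨q1, hq1⟩ := hd1
    have hd2 : Tm k p l (dI 2) ∣ q1 := by
      apply dvd_of_dvd_mul k h (Tm k p l (dI 0) * Tm k p l (dI 1)) q1 (dI 2)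
      · intro j hj hj'
        have h1 := hTdI j 2 hj
        rcases (T_prime k h j).dvd_or_dvd hj' with h2 | h2
        · rw [hTM j 0 h2] at h1
          exact absurd h1 (by decide)
        · rw [hTM j 1 h2] at h1
          exact absurd h1 (by decide)
      · have : Tm k p l (dI 0) * Tm k p l (dI 1) * q1 = θ := by rw [hq0, hq1]; ring
        rw [this]; exact hMθ 2
    obtain ⟨q2, hq2⟩ := hd2
    have hθ2 : θ = Tm k p l (dI 0 + dI 1 + dI 2) * q2 := by
      rw [hq0, hq1, hq2, Tm_add, Tm_add]; ring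
    let c : k := ((l (C 0) : k) * (l (C 1) : k) * (l (C 2) : k))⁻¹
    let q : TriAlg k p l := c • q2
    have hθP : θ = P 0 * P 1 * P 2 * q := by
      have h1 : Tm k p l (dI 0) * Tm k p l (dI 1) * Tm k p l (dI 2) = c • (P 0 * P 1 * P 2) := by
        rw [hMP, hMP, hMP, smul_mul_smul_comm, smul_mul_smul_comm]
        congr 1
        simp only [c]
        rw [mul_inv, mul_inv]
      rw [hθ2, Tm_add, Tm_add, h1]
      simp only [q]
      rw [smul_mul_assoc, mul_smul_comm]
    have hprod : ∀ i, P i * ∏ i' ∈ Finset.univ.erase i, P i' = P 0 * P 1 * P 2 := by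
      intro i
      rw [Finset.mul_prod_erase Finset.univ P (Finset.mem_univ i), Fin.prod_univ_three]
    have hxi : ∀ i, x i = q * (β i • ∏ i' ∈ Finset.univ.erase i, P i') := by
      intro i
      apply mul_left_cancel₀ (hPne i)
      rw [hPx, hθP, ← hprod i, hsm, hsm]
      ring
    have hs : part k p l (C 0) * (β 0 • ∏ i' ∈ Finset.univ.erase 0, P i') +
        part k p l (C 1) * (β 1 • ∏ i' ∈ Finset.univ.erase 1, P i') +
        part k p l (C 2) * (β 2 • ∏ i' ∈ Finset.univ.erase 2, P i') = 0 := by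
      have h1 : ∀ i, part k p l (C i) * (β i • ∏ i' ∈ Finset.univ.erase i, P i') =
          β i • (P 0 * P 1 * P 2) := by
        intro i
        rw [← hprod i, mul_smul_comm]
      rw [h1, h1, h1, ← add_smul, ← add_smul, hβs, zero_smul]
    obtain ⟨δ, hδ1, hδ2⟩ := build (k := k) C hC
      (fun i => β i • ∏ i' ∈ Finset.univ.erase i, P i') hs
    apply hfinal δ β q ?_ (fun i => by rw [hδ2]; exact hxi i) hδ1 ?_ ⟨0, h3 0⟩
    · refine ⟨hC, hβs, hδ1, Or.inl ⟨hβne, ?_, hδ2⟩⟩
      intro i i' hii'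
      by_contra hcon
      push Not at hcon
      have hd : ∀ a b, a ≠ b → l (C a) ≠ 1 → T k p l (C a) ∣ D (T k p l (C b)) := by
        intro a b hab ha
        have : x b = q * (β b • ∏ i' ∈ Finset.univ.erase b, P i') := hxi b
        change T k p l (C a) ∣ x b
        rw [this]
        apply Dvd.dvd.mul_left
        rw [hsm]
        apply Dvd.dvd.mul_left
        exact dvd_trans (hTP a ha) (Finset.dvd_prod_of_mem P (Finset.mem_erase.2
          ⟨hab, Finset.mem_univ _⟩))
      rcases dvd_cross_ker hD (hd i i' hii' hcon.1) (hd i' i hii'.symm hcon.2) with h1 | h1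
      · exact h3 i h1
      · exact h3 i' h1
    · have h1 : θ ∈ comp k p l (Finsupp.weight (degT p l) (ev p l 1) + w) :=
        hw _ _ (Tm_mem_comp _)
      rw [hθ2] at h1
      exact ⟨_, Submodule.smul_mem _ _ (hom_of_mul h _ h1)⟩
  -- type (ii)
  push Not at h3 h0
  obtain ⟨i0, hi0⟩ := h3
  have e1 : ∀ i0 : Fin 3, ∃ a b : Fin 3, a ≠ b ∧ a ≠ i0 ∧ b ≠ i0 ∧ ∀ i, i = i0 ∨ i = a ∨ i = b := by
    decide
  obtain ⟨a, b, hab, ha, hb, hall⟩ := e1 i0
  have hs2 : P a * x a + P b * x b = 0 := by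
    have := sum_three (fun i => P i * x i) i0 a b hab ha hb
    rw [hsum, hi0, mul_zero, zero_add] at this
    exact this.symm
  have hxa : x a ≠ 0 := by
    intro h1
    rw [h1, mul_zero, zero_add] at hs2
    have h2 := (mul_eq_zero.1 hs2).resolve_left (hPne b)
    obtain ⟨i, hi⟩ := h0
    rcases hall i with rfl | rfl | rfl
    · exact hi hi0
    · exact hi h1
    · exact hi h2
  have hxb : x b ≠ 0 := by
    intro h1
    rw [h1, mul_zero, add_zero] at hs2
    exact hxa ((mul_eq_zero.1 hs2).resolve_left (hPne a))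
  have hdv : Tm k p l (dI b) ∣ x a := by
    apply dvd_of_dvd_mul k h (Tm k p l (dI a)) (x a) (dI b)
    · intro j hj hj'
      exact hab ((hTM j a hj').symm.trans (hTdI j b hj))
    · rw [hMP a, smul_mul_assoc, hsm]
      apply Dvd.dvd.mul_left
      have : P a * x a = P b * (- x b) := by linear_combination hs2
      rw [this]
      exact Dvd.dvd.mul_right (hMdP b) _
  obtain ⟨q', hq'⟩ := hdv
  let q : TriAlg k p l := (l (C b) : k)⁻¹ • q'
  have hxaq : x a = q * P b := by
    rw [hq', hMP b]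
    simp only [q]
    rw [smul_mul_assoc, smul_mul_assoc, mul_comm]
  have hxbq : x b = q * (-P a) := by
    apply mul_left_cancel₀ (hPne b)
    rw [hxaq] at hs2
    linear_combination hs2
  have hl : ∀ i i', i ≠ i0 → i' ≠ i0 → i ≠ i' → l (C i) = 1 ∨ l (C i') = 1 := by
    have hlab : l (C a) = 1 ∨ l (C b) = 1 := by
      by_contra hcon
      push Not at hcon
      have h1 : T k p l (C a) ∣ D (T k p l (C b)) := by
        change T k p l (C a) ∣ x b
        rw [hxbq]
        exact Dvd.dvd.mul_left ((dvd_neg).2 (hTP a hcon.1)) _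
      have h2 : T k p l (C b) ∣ D (T k p l (C a)) := by
        change T k p l (C b) ∣ x a
        rw [hxaq]
        exact Dvd.dvd.mul_left (hTP b hcon.2) _
      rcases dvd_cross_ker hD h1 h2 with h3 | h3
      · exact hxa h3
      · exact hxb h3
    intro i i' hi hi' hii'
    have h1 := (hall i).resolve_left hi
    have h2 := (hall i').resolve_left hi'
    rcases h1 with rfl | rfl <;> rcases h2 with rfl | rfl
    · exact absurd rfl hii'
    · exact hlab
    · exact hlab.symm
    · exact absurd rfl hii'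
  obtain ⟨δ, β, hbas, hδ, hδ0, hδa, hδb⟩ := basic_two (k := k) C hC i0 a b hab ha hb hl
  apply hfinal δ β q hbas ?_ hδ ?_ ⟨a, hxa⟩
  · intro i
    rcases hall i with rfl | rfl | rfl
    · rw [hi0, hδ0, mul_zero]
    · rw [hδa]; exact hxaq
    · rw [hδb]; exact hxbq
  · have h1 : x a ∈ comp k p l (degT p l (C a) + w) := hw _ _ (T_mem_comp _)
    rw [hq'] at h1
    exact ⟨_, Submodule.smul_mem _ _ (hom_of_mul h _ h1)⟩

end

end Pool.Agent.V1154.Tri
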